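import Mathlib

open Finset

namespace Pool.Agent.Helper33.EvenGraph

open Classical in
/-- number of elements of `S` in the pair `e` -/
noncomputable def cnt {V : Type*} (S : Finset V) (e : Sym2 V) : ℕ :=
  (S.filter (fun v => v ∈ e)).card

open Classical in
/-- degree of `v` in the edge set `A` -/
noncomputable def dg {V : Type*} (A : Finset (Sym2 V)) (v : V) : ℕ :=
  (A.filter (fun e => v ∈ e)).card

open Classical in
/-- non-diagonal pairs -/
noncomputable def pairs (V : Type*) [Fintype V] : Finset (Sym2 V) :=
  Finset.univ.filter (fun e : Sym2 V => ¬ e.IsDiag)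

open Classical in
/-- edges of `G` -/
noncomputable def ed {V : Type*} [Fintype V] (G : SimpleGraph V) : Finset (Sym2 V) :=
  Finset.univ.filter (fun e : Sym2 V => e ∈ G.edgeSet)

open Classical in
/-- weight of an edge set -/
noncomputable def wt {V : Type*} {R : Type*} [CommRing R] (x : R) (A : Finset (Sym2 V)) : R :=
  if ∀ v : V, Even (dg A v) then x ^ A.card else 0

lemma mem_pairs {V : Type*} [Fintype V] (e : Sym2 V) : e ∈ pairs V ↔ ¬ e.IsDiag := by
  simp [pairs]

lemma mem_ed {V : Type*} [Fintype V] (G : SimpleGraph V) (e : Sym2 V) :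
    e ∈ ed G ↔ e ∈ G.edgeSet := by
  simp [ed]

lemma coe_ed {V : Type*} [Fintype V] (G : SimpleGraph V) :
    ((ed G : Finset (Sym2 V)) : Set (Sym2 V)) = G.edgeSet := by
  ext e
  rw [Finset.mem_coe, mem_ed]

lemma sum_graph_eq {p : ℕ} {R : Type*} [CommRing R]
    (F : Finset (Sym2 (Fin p)) → R) :
    ∑ G : SimpleGraph (Fin p), F (ed G) = ∑ A ∈ (pairs (Fin p)).powerset, F A := by
  refine Finset.sum_bij' (fun G _ => ed G)
    (fun A _ => SimpleGraph.fromEdgeSet (A : Set (Sym2 (Fin p)))) ?_ ?_ ?_ ?_ ?_
  · intro G _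
    rw [Finset.mem_powerset]
    intro e he
    rw [mem_pairs]
    rw [mem_ed] at he
    exact G.not_isDiag_of_mem_edgeSet he
  · intro A _
    exact Finset.mem_univ _
  · intro G _
    rw [coe_ed, SimpleGraph.fromEdgeSet_edgeSet]
  · intro A hA
    rw [Finset.mem_powerset] at hA
    ext e
    rw [mem_ed, SimpleGraph.edgeSet_fromEdgeSet]
    constructor
    · intro h
      exact h.1
    · intro h
      refine ⟨h, ?_⟩
      have := hA h
      rw [mem_pairs] at this
      simpa using this
  · intro G _
    rfl

lemma deg_eq {V : Type*} [Fintype V] (G : SimpleGraph V) (v : V) :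
    (G.neighborSet v).ncard = dg (ed G) v := by
  classical
  rw [Set.ncard_eq_toFinset_card']
  have h1 : (G.neighborSet v).toFinset.card = G.degree v := rfl
  rw [h1, ← SimpleGraph.card_incidenceFinset_eq_degree]
  unfold dg
  congr 1
  ext e
  rw [SimpleGraph.mem_incidenceFinset, Finset.mem_filter, mem_ed]
  rfl

lemma card_ed {V : Type*} [Fintype V] (G : SimpleGraph V) :
    G.edgeSet.ncard = (ed G).card := by
  rw [← coe_ed, Set.ncard_coe_finset]

lemma pair_prod {V : Type*} [Fintype V] {R : Type*} [CommRing R] (x : R) (S : Finset V) :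
    ∏ e ∈ pairs V, (1 + x * (-1) ^ (cnt S e))
      = (1 + x) ^ ((Fintype.card V).choose 2 - S.card * (Fintype.card V - S.card))
        * (1 - x) ^ (S.card * (Fintype.card V - S.card)) := by
  classical
  have hodd : ∀ e ∈ pairs V, (Odd (cnt S e) ↔ ∃ a ∈ S, ∃ b ∈ Sᶜ, s(a, b) = e) := by
    intro e he
    induction e with
    | h a b =>
      rw [mem_pairs] at he
      have hab : a ≠ b := by simpa using he
      have hc : cnt S s(a, b) = (if a ∈ S then 1 else 0) + (if b ∈ S then 1 else 0) := by
        unfold cnt
        have h0 : (S.filter (fun v => v ∈ s(a, b)))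
            = ({a, b} : Finset V).filter (fun v => v ∈ S) := by
          ext v
          simp only [Finset.mem_filter, Sym2.mem_iff, Finset.mem_insert, Finset.mem_singleton]
          tauto
        have h1 := congrArg Finset.card h0
        rw [Finset.card_filter (fun v => v ∈ S), Finset.sum_pair hab] at h1
        convert h1
      rw [hc]
      by_cases ha : a ∈ S <;> by_cases hb : b ∈ S
      · simp only [ha, hb, if_true]
        constructor
        · intro h; exact absurd h (by decide)
        · rintro ⟨c, hc, d, hd, hcd⟩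
          rw [Finset.mem_compl] at hd
          rcases Sym2.eq_iff.mp hcd with ⟨h1, h2⟩ | ⟨h1, h2⟩
          · exact absurd (h2 ▸ hb) hd
          · exact absurd (h2 ▸ ha) hd
      · simp only [ha, hb, if_true, if_false]
        constructor
        · intro _
          exact ⟨a, ha, b, by simpa using hb, rfl⟩
        · intro _; decide
      · simp only [ha, hb, if_true, if_false]
        constructor
        · intro _
          exact ⟨b, hb, a, by simpa using ha, Sym2.eq_swap⟩
        · intro _; decide
      · simp only [ha, hb, if_false]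
        constructor
        · intro h; exact absurd h (by decide)
        · rintro ⟨c, hc, d, hd, hcd⟩
          rcases Sym2.eq_iff.mp hcd with ⟨h1, h2⟩ | ⟨h1, h2⟩
          · exact absurd (h1 ▸ hc) ha
          · exact absurd (h1 ▸ hc) hb
  have hcard : ((pairs V).filter (fun e => Odd (cnt S e))).card
      = S.card * (Fintype.card V - S.card) := by
    rw [← Finset.card_compl, ← Finset.card_product]
    symm
    refine Finset.card_bij (fun q _ => s(q.1, q.2)) ?_ ?_ ?_
    · rintro ⟨a, b⟩ hq
      rw [Finset.mem_product] at hq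
      have hne : a ≠ b := by
        intro h
        have h1 := hq.1
        have h2 := hq.2
        simp only [Finset.mem_compl] at h1 h2
        exact h2 (h ▸ h1)
      have hm : s(a, b) ∈ pairs V := by
        rw [mem_pairs]
        simpa using hne
      rw [Finset.mem_filter]
      exact ⟨hm, (hodd _ hm).mpr ⟨a, hq.1, b, hq.2, rfl⟩⟩
    · rintro ⟨a, b⟩ hq ⟨c, d⟩ hq' heq
      rw [Finset.mem_product] at hq hq'
      simp only [Finset.mem_compl] at hq hq'
      rcases Sym2.eq_iff.mp heq with ⟨h1, h2⟩ | ⟨h1, h2⟩
      · simp only at h1 h2; rw [h1, h2]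
      · simp only at h1 h2
        exact absurd (h1 ▸ hq.1) hq'.2
    · intro e he
      rw [Finset.mem_filter] at he
      obtain ⟨a, ha, b, hb, hab⟩ := (hodd e he.1).mp he.2
      exact ⟨(a, b), Finset.mem_product.mpr ⟨ha, hb⟩, hab⟩
  have hPcard : (pairs V).card = (Fintype.card V).choose 2 := by
    have h1 := Sym2.card_subtype_not_diag (α := V)
    rw [← h1, Fintype.card_subtype]
    congr 1
  have hcomp : ((pairs V).filter (fun e => ¬ Odd (cnt S e))).card
      = (Fintype.card V).choose 2 - S.card * (Fintype.card V - S.card) := by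
    have := Finset.card_filter_add_card_filter_not (s := pairs V) (fun e => Odd (cnt S e))
    omega
  rw [← Finset.prod_filter_mul_prod_filter_not (pairs V) (fun e => Odd (cnt S e)), mul_comm]
  congr 1
  · rw [← hcomp]
    rw [Finset.prod_congr rfl (g := fun _ => 1 + x), Finset.prod_const]
    intro e he
    rw [Finset.mem_filter, Nat.not_odd_iff_even] at he
    rw [he.2.neg_one_pow, mul_one]
  · rw [← hcard]
    rw [Finset.prod_congr rfl (g := fun _ => 1 - x), Finset.prod_const]
    intro e he
    rw [Finset.mem_filter] at he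
    rw [he.2.neg_one_pow]
    ring

lemma sign_swap {V : Type*} {R : Type*} [CommRing R] (x : R) (S : Finset V)
    (A : Finset (Sym2 V)) :
    x ^ A.card * ∏ v ∈ S, (-1 : R) ^ (dg A v) = ∏ e ∈ A, (x * (-1) ^ (cnt S e)) := by
  classical
  rw [Finset.prod_mul_distrib, Finset.prod_const]
  congr 1
  rw [Finset.prod_pow_eq_pow_sum, Finset.prod_pow_eq_pow_sum]
  congr 1
  unfold cnt dg
  simp_rw [Finset.card_filter]
  exact Finset.sum_comm

lemma even_weight {V : Type*} [Fintype V] {R : Type*} [CommRing R] (x : R)
    (A : Finset (Sym2 V)) :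
    (2 : R) ^ (Fintype.card V) * wt x A
      = ∑ S : Finset V, ∏ e ∈ A, (x * (-1) ^ (cnt S e)) := by
  classical
  have h1 : ∑ S : Finset V, ∏ e ∈ A, (x * (-1) ^ (cnt S e))
      = x ^ A.card * ∏ v : V, (1 + (-1 : R) ^ (dg A v)) := by
    rw [Finset.prod_one_add, Finset.mul_sum, Finset.powerset_univ]
    refine Finset.sum_congr rfl ?_
    intro S _
    rw [sign_swap]
  rw [h1]
  unfold wt
  by_cases h : ∀ v : V, Even (dg A v)
  · rw [if_pos h]
    have : ∏ v : V, (1 + (-1 : R) ^ (dg A v)) = 2 ^ (Fintype.card V) := by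
      rw [Finset.prod_congr rfl (g := fun _ => (2 : R)), Finset.prod_const, Finset.card_univ]
      intro v _
      rw [(h v).neg_one_pow]
      norm_num
    rw [this, mul_comm]
  · rw [if_neg h]
    push Not at h
    obtain ⟨v, hv⟩ := h
    have : ∏ v : V, (1 + (-1 : R) ^ (dg A v)) = 0 := by
      refine Finset.prod_eq_zero (Finset.mem_univ v) ?_
      rw [(Nat.not_even_iff_odd.mp hv).neg_one_pow]
      norm_num
    rw [this]
    ring

lemma main {R : Type*} [CommRing R] (x : R) (p : ℕ) :
    (2 : R) ^ p * ∑ G : SimpleGraph (Fin p), wt x (ed G)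
      = ∑ k ∈ Finset.range (p + 1), (p.choose k : R) * (1 + x) ^ (p.choose 2 - k * (p - k))
          * (1 - x) ^ (k * (p - k)) := by
  rw [sum_graph_eq, Finset.mul_sum]
  have h6 : ∀ A ∈ (pairs (Fin p)).powerset,
      (2 : R) ^ p * wt x A = ∑ S : Finset (Fin p), ∏ e ∈ A, (x * (-1) ^ (cnt S e)) := by
    intro A _
    have := even_weight (V := Fin p) x A
    rw [Fintype.card_fin] at this
    exact this
  rw [Finset.sum_congr rfl h6, Finset.sum_comm]
  have h7 : ∀ S ∈ (Finset.univ : Finset (Finset (Fin p))),
      ∑ A ∈ (pairs (Fin p)).powerset, ∏ e ∈ A, (x * (-1) ^ (cnt S e))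
      = (1 + x) ^ (p.choose 2 - S.card * (p - S.card)) * (1 - x) ^ (S.card * (p - S.card)) := by
    intro S _
    rw [← Finset.prod_one_add]
    have := pair_prod (V := Fin p) x S
    rw [Fintype.card_fin] at this
    exact this
  rw [Finset.sum_congr rfl h7]
  have h8 := Finset.sum_powerset_apply_card (fun k : ℕ =>
    (1 + x) ^ (p.choose 2 - k * (p - k)) * (1 - x) ^ (k * (p - k)))
    (x := (Finset.univ : Finset (Fin p)))
  rw [Finset.powerset_univ, Finset.card_univ, Fintype.card_fin] at h8
  rw [h8]
  refine Finset.sum_congr rfl ?_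
  intro k _
  rw [nsmul_eq_mul, mul_assoc]

end Pool.Agent.Helper33.EvenGraph

open Pool.Agent.Helper33.EvenGraph in
theorem even_graph_sum {R : Type*} [CommRing R] (x : R) (p : ℕ) :
    (2 : R) ^ p * ∑ G : SimpleGraph (Fin p),
        (open Classical in if ∀ v, Even (G.neighborSet v).ncard then x ^ G.edgeSet.ncard else 0)
      = ∑ k ∈ Finset.range (p + 1), (p.choose k : R) * (1 + x) ^ (p.choose 2 - k * (p - k))
          * (1 - x) ^ (k * (p - k)) := by
  have h1 : ∀ G : SimpleGraph (Fin p),
        (open Classical in if ∀ v, Even (G.neighborSet v).ncard then x ^ G.edgeSet.ncard else 0)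
      = wt x (ed G) := by
    intro G
    rw [card_ed]
    unfold wt
    have h2 : (∀ v, Even (G.neighborSet v).ncard) ↔ ∀ v : Fin p, Even (dg (ed G) v) := by
      refine forall_congr' fun v => ?_
      rw [deg_eq G v]
    by_cases h : ∀ v, Even (G.neighborSet v).ncard
    · rw [if_pos h, if_pos (h2.mp h)]
    · rw [if_neg h, if_neg (fun h' => h (h2.mpr h'))]
  rw [← main, Finset.sum_congr rfl (fun G _ => h1 G)]
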