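import Mathlib
import Pool.Agent.Helper62.AC.Defs

/-!
# MP_917a41_gt: packet I (tripods and comb versus graph)
-/

open Set Topology TopologicalSpace Filter Pool.Agent.Helper62.AC

namespace Pool.Agent.Helper33.ACI

/-- Three order connected sets in `[0,1]` around `s` having pairwise only `s` in common:
one of them is trivial. -/
theorem three_sides (K : Fin 3 → Set unitInterval) (s : unitInterval)
    (hK : ∀ j, (K j).OrdConnected) (hs : ∀ j, s ∈ K j)
    (hint : ∀ j k, j ≠ k → K j ∩ K k ⊆ {s}) : ∃ j, ∀ t ∈ K j, t = s := by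
  by_contra hcon
  push Not at hcon
  choose t htK hts using hcon
  -- two of the three on the same side
  have key : ∀ j k, j ≠ k → ¬ (s < t j ∧ s < t k) ∧ ¬ (t j < s ∧ t k < s) := by
    intro j k hjk
    constructor
    · rintro ⟨h1, h2⟩
      have hm : s < min (t j) (t k) := lt_min h1 h2
      have hmj : min (t j) (t k) ∈ K j :=
        (hK j).out (hs j) (htK j) ⟨hm.le, min_le_left _ _⟩
      have hmk : min (t j) (t k) ∈ K k :=
        (hK k).out (hs k) (htK k) ⟨hm.le, min_le_right _ _⟩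
      have := hint j k hjk ⟨hmj, hmk⟩
      exact hm.ne' this
    · rintro ⟨h1, h2⟩
      have hm : max (t j) (t k) < s := max_lt h1 h2
      have hmj : max (t j) (t k) ∈ K j :=
        (hK j).out (htK j) (hs j) ⟨le_max_left _ _, hm.le⟩
      have hmk : max (t j) (t k) ∈ K k :=
        (hK k).out (htK k) (hs k) ⟨le_max_right _ _, hm.le⟩
      have := hint j k hjk ⟨hmj, hmk⟩
      exact hm.ne this
  have h01 := key 0 1 (by decide)
  have h02 := key 0 2 (by decide)
  have h12 := key 1 2 (by decide)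
  rcases lt_or_gt_of_ne (hts 0) with h0 | h0 <;> rcases lt_or_gt_of_ne (hts 1) with h1 | h1 <;>
    rcases lt_or_gt_of_ne (hts 2) with h2 | h2 <;> tauto

theorem isClosed_arc {Y : Type*} [TopologicalSpace Y] [T2Space Y] {A : Set Y} {a b : Y}
    (h : ArcBetween A a b) : IsClosed A := by
  obtain ⟨γ, hγ, -, hr, -⟩ := h.exists_map
  rw [← hr]
  exact (isCompact_range hγ).isClosed

theorem stmtI1 : StmtI1 := by
  intro Y _ _ X hX
  obtain ⟨-, n, A, a, b, hA, hU, hint⟩ := hX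
  refine ((finite_range a).union (finite_range b)).subset ?_
  rintro x ⟨C, c, hC, hCX, hCint⟩
  by_contra hx
  simp only [mem_union, mem_range, not_or, not_exists] at hx
  obtain ⟨hxa, hxb⟩ := hx
  choose γ hγ hγinj hγr hγ0 hγ1 using fun j => (hC j).exists_map
  have hxX : x ∈ X := by
    refine hCX 0 ?_
    rw [← hγr 0]
    exact ⟨0, hγ0 0⟩
  rw [hU] at hxX
  obtain ⟨i, hxi⟩ := mem_iUnion.1 hxX
  obtain ⟨H, hH, hHinj, hHr, -, -⟩ := (hA i).exists_map
  have hHemb : IsEmbedding H := (hH.isClosedEmbedding hHinj).isEmbedding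
  obtain ⟨s, hs⟩ : x ∈ range H := by rw [hHr]; exact hxi
  set U : Set Y := (⋃ j ∈ {j : Fin n | j ≠ i}, A j)ᶜ with hUdef
  have hUo : IsOpen U := by
    rw [hUdef, isOpen_compl_iff]
    exact (Set.toFinite {j : Fin n | j ≠ i}).isClosed_biUnion fun j _ => isClosed_arc (hA j)
  have hxU : x ∈ U := by
    rw [hUdef, mem_compl_iff, mem_iUnion₂]
    rintro ⟨j, hj, hxj⟩
    have := (hint j i hj ⟨hxj, hxi⟩).2
    rcases this with h | h
    · exact hxa i h.symm
    · exact hxb i h.symm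
  have hXU : ∀ y ∈ X, y ∈ U → y ∈ A i := by
    intro y hy hyU
    rw [hU] at hy
    obtain ⟨j, hj⟩ := mem_iUnion.1 hy
    by_cases hji : j = i
    · rw [← hji]; exact hj
    · exact absurd (mem_iUnion₂.2 ⟨j, hji, hj⟩) hyU
  -- small initial segments
  have hseg : ∀ j, ∃ ε : unitInterval, 0 < ε ∧ ∀ t ≤ ε, γ j t ∈ U := by
    intro j
    have h1 : (γ j) ⁻¹' U ∈ 𝓝 (0 : unitInterval) := by
      refine (hUo.preimage (hγ j)).mem_nhds ?_
      change γ j 0 ∈ U
      rw [hγ0 j]; exact hxU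
    rw [Metric.mem_nhds_iff] at h1
    obtain ⟨r, hr, hball⟩ := h1
    refine ⟨⟨min (r / 2) 1, ?_, min_le_right _ _⟩, ?_, ?_⟩
    · exact le_min (by positivity) zero_le_one
    · rw [← Subtype.coe_lt_coe]
      exact lt_min (by positivity) zero_lt_one
    · intro t ht
      refine hball ?_
      rw [Metric.mem_ball, Subtype.dist_eq, Real.dist_eq]
      have h2 : (t : ℝ) ≤ r / 2 := le_trans (Subtype.coe_le_coe.2 ht) (min_le_left _ _)
      have h3 : (0 : ℝ) ≤ t := t.2.1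
      have h4 : ((0 : unitInterval) : ℝ) = 0 := rfl
      rw [h4, sub_zero, abs_of_nonneg h3]
      linarith
  choose ε hε hεU using hseg
  set K : Fin 3 → Set unitInterval := fun j => H ⁻¹' (γ j '' Icc 0 (ε j)) with hKdef
  have hKsub : ∀ j, γ j '' Icc 0 (ε j) ⊆ range H := by
    rintro j _ ⟨t, ht, rfl⟩
    rw [hHr]
    refine hXU _ (hCX j ?_) (hεU j t ht.2)
    rw [← hγr j]; exact ⟨t, rfl⟩
  have hKconn : ∀ j, IsPreconnected (K j) := by
    intro j
    rw [← hHemb.isInducing.isPreconnected_image, hKdef]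
    simp only
    rw [image_preimage_eq_of_subset (hKsub j)]
    exact isPreconnected_Icc.image _ (hγ j).continuousOn
  have hsK : ∀ j, s ∈ K j := by
    intro j
    refine ⟨0, ⟨le_rfl, (hε j).le⟩, ?_⟩
    rw [hγ0 j, hs]
  have hKint : ∀ j k, j ≠ k → K j ∩ K k ⊆ {s} := by
    rintro j k hjk t ⟨⟨u, -, hu⟩, ⟨w, -, hw⟩⟩
    have h1 : H t ∈ C j ∩ C k := by
      constructor
      · rw [← hγr j]; exact ⟨u, hu⟩
      · rw [← hγr k]; exact ⟨w, hw⟩
    rw [hCint j k hjk] at h1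
    exact hHinj (by rw [h1, hs])
  obtain ⟨j, hj⟩ := three_sides K s (fun j => (hKconn j).ordConnected) hsK hKint
  obtain ⟨t, ht⟩ := hKsub j ⟨ε j, ⟨(hε j).le, le_rfl⟩, rfl⟩
  have h1 : t ∈ K j := ⟨ε j, ⟨(hε j).le, le_rfl⟩, ht.symm⟩
  have h2 := hj t h1
  rw [h2, hs, ← hγ0 j] at ht
  exact (hε j).ne (hγinj j ht)

theorem stmtI2 : StmtI2 := by
  intro Y _ _ X U v f l hU hvU hvX hf hl hlt hfl hcl hX
  obtain ⟨-, n, A, a, b, hA, hUn, -⟩ := hX
  have hW : ∀ i, ∃ W : Set Y, IsOpen W ∧ v ∈ W ∧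
      ∀ x ∈ A i ∩ W, ∃ C ⊆ A i ∩ U, IsPreconnected C ∧ x ∈ C ∧ v ∈ C := by
    intro i
    by_cases hvi : v ∈ A i
    · obtain ⟨H, hH, hHinj, hHr, -, -⟩ := (hA i).exists_map
      have hHemb : IsEmbedding H := (hH.isClosedEmbedding hHinj).isEmbedding
      obtain ⟨s, hs⟩ : v ∈ range H := by rw [hHr]; exact hvi
      have h1 : H ⁻¹' U ∈ 𝓝 s := by
        refine (hU.preimage hH).mem_nhds ?_
        change H s ∈ U
        rw [hs]; exact hvU
      rw [Metric.mem_nhds_iff] at h1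
      obtain ⟨r, hr, hball⟩ := h1
      obtain ⟨W, hWo, hW⟩ := hHemb.isInducing.isOpen_iff.1 (Metric.isOpen_ball (x := s) (ε := r))
      have hsb : s ∈ Metric.ball s r := Metric.mem_ball_self hr
      have hoc : (Metric.ball s r).OrdConnected := by
        constructor
        intro p hp q hq z hz
        rw [Metric.mem_ball, Subtype.dist_eq, Real.dist_eq, abs_lt] at hp hq ⊢
        have e1 : (p : ℝ) ≤ z := hz.1
        have e2 : (z : ℝ) ≤ q := hz.2
        constructor <;> linarith [hp.1, hp.2, hq.1, hq.2]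
      refine ⟨W, hWo, ?_, ?_⟩
      · have : s ∈ H ⁻¹' W := by rw [hW]; exact hsb
        rw [← hs]; exact this
      · rintro x ⟨hxA, hxW⟩
        refine ⟨H '' Metric.ball s r, ?_, ?_, ?_, ?_⟩
        · rintro _ ⟨t, ht, rfl⟩
          refine ⟨?_, hball ht⟩
          rw [← hHr]; exact ⟨t, rfl⟩
        · exact hoc.isPreconnected.image _ hH.continuousOn
        · rw [← hHr] at hxA
          obtain ⟨t, rfl⟩ := hxA
          refine ⟨t, ?_, rfl⟩
          rw [← hW]; exact hxW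
        · exact ⟨s, hsb, hs⟩
    · exact ⟨(A i)ᶜ, (isClosed_arc (hA i)).isOpen_compl, hvi, fun x hx => absurd hx.1 hx.2⟩
  choose W hWo hvW hWC using hW
  obtain ⟨x, ⟨hxX, hxW⟩, hfx⟩ := hcl (⋂ i, W i) (isOpen_iInter_of_finite hWo)
    (mem_iInter.2 hvW)
  rw [hUn] at hxX
  obtain ⟨i, hxi⟩ := mem_iUnion.1 hxX
  obtain ⟨C, hCU, hC, hxC, hvC⟩ := hWC i x ⟨hxi, mem_iInter.1 hxW i⟩
  obtain ⟨m, hm⟩ := ((tendsto_order.1 hlt).1 (f x) hfx).exists
  have h2 : l m ∈ f '' C :=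
    (hC.image f hf.continuousOn).Icc_subset ⟨x, hxC, rfl⟩ ⟨v, hvC, rfl⟩ ⟨hm.le, (hl m).le⟩
  obtain ⟨y, hyC, hy⟩ := h2
  refine hfl m y ⟨?_, (hCU hyC).2⟩ hy
  rw [hUn]
  exact mem_iUnion.2 ⟨i, (hCU hyC).1⟩

end Pool.Agent.Helper33.ACI
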