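import Mathlib

namespace Pool.Agent.Helper33.Schur

/-- `schurMono χ n` is the number of monochromatic Schur triples of `{1,…,n}` under `χ`:
pairs `(x,y)` with `1 ≤ x ≤ y`, `x + y ≤ n` and `χ x = χ y = χ (x+y)`. -/
def schurMono {k : ℕ} (χ : ℕ → Fin k) (n : ℕ) : ℕ :=
  ((Finset.Icc 1 n ×ˢ Finset.Icc 1 n).filter
    (fun q => q.1 ≤ q.2 ∧ q.1 + q.2 ≤ n ∧ χ q.1 = χ q.2 ∧ χ q.2 = χ (q.1 + q.2))).card

/-- `schurMin k n` is the least number of monochromatic Schur triples over all
`k`-colourings of `{1,…,n}` (colours of integers outside `{1,…,n}` play no role). -/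
noncomputable def schurMin (k n : ℕ) : ℕ :=
  sInf (Set.range (fun χ : ℕ → Fin k => schurMono χ n))

end Pool.Agent.Helper33.Schur
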