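import Pool.Agent.Helper33.SchurDefs

namespace Pool.Agent.Helper33.Schur

open Finset

/-- colours of the 67 blocks -/
def blk (k : ℕ) : Fin 3 :=
  if k < 10 then 0 else if k < 24 then 1 else if k < 26 then 0 else if k < 54 then 2
  else if k < 55 then 0 else if k < 66 then 1 else 0

/-- block colouring with block length `L` -/
def col (L : ℕ) (x : ℕ) : Fin 3 := blk ((x - 1) / L)

/-- pairs `(a,b)` of residues with `a+b+1 < L` -/
lemma card_low (L : ℕ) :
    ((range L ×ˢ range L).filter (fun q => q.1 + q.2 + 1 < L)).card * 2 = L * (L - 1) := by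
  rw [card_filter, sum_product]
  have h : ∀ a ∈ range L, (∑ b ∈ range L, if a + b + 1 < L then 1 else 0) = L - 1 - a := by
    intro a _
    rw [← card_filter]
    have : (range L).filter (fun b => a + b + 1 < L) = range (L - 1 - a) := by
      ext b
      simp only [mem_filter, mem_range]
      omega
    rw [this, card_range]
  rw [sum_congr rfl h, Finset.sum_range_reflect (fun a => a) L, Finset.sum_range_id_mul_two]

lemma card_high (L : ℕ) :
    ((range L ×ˢ range L).filter (fun q => L ≤ q.1 + q.2 + 1)).card * 2 = L * (L + 1) := by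
  have h1 := Finset.card_filter_add_card_filter_not (s := range L ×ˢ range L)
    (fun q => q.1 + q.2 + 1 < L)
  have h2 : ((range L ×ˢ range L).filter (fun q => ¬ q.1 + q.2 + 1 < L))
      = ((range L ×ˢ range L).filter (fun q => L ≤ q.1 + q.2 + 1)) := by
    ext q
    simp only [mem_filter, not_lt]
  rw [h2, card_product, card_range] at h1
  have h3 := card_low L
  rcases L with _ | L
  · simp
  · simp only [Nat.add_sub_cancel] at h3
    nlinarith

def cond0 (i j : ℕ) : Prop := i + j < 67 ∧ blk i = blk j ∧ blk j = blk (i + j)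

def cond1 (i j : ℕ) : Prop := i + j + 1 < 67 ∧ blk i = blk j ∧ blk j = blk (i + j + 1)

instance (i j : ℕ) : Decidable (cond0 i j) := by unfold cond0; infer_instance
instance (i j : ℕ) : Decidable (cond1 i j) := by unfold cond1; infer_instance

lemma K0 : ((range 67 ×ˢ range 67).filter (fun p => cond0 p.1 p.2)).card = 80 := by
  decide +kernel

lemma K1 : ((range 67 ×ˢ range 67).filter (fun p => cond1 p.1 p.2)).card = 54 := by
  decide +kernel

/-- ordered monochromatic pairs for the block colouring -/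
def ordSet (L : ℕ) : Finset (ℕ × ℕ) :=
  (Icc 1 (67 * L) ×ˢ Icc 1 (67 * L)).filter
    (fun q => q.1 + q.2 ≤ 67 * L ∧ col L q.1 = col L q.2 ∧ col L q.2 = col L (q.1 + q.2))

lemma ord_card (L : ℕ) (hL : 0 < L) : (ordSet L).card * 2 + 26 * L ≤ 134 * (L * L) := by
  set T : Finset ((ℕ × ℕ) × (ℕ × ℕ)) :=
    ((range 67 ×ˢ range 67) ×ˢ (range L ×ˢ range L)).filter
      (fun r => (cond0 r.1.1 r.1.2 ∧ r.2.1 + r.2.2 + 1 < L) ∨
        (cond1 r.1.1 r.1.2 ∧ L ≤ r.2.1 + r.2.2 + 1)) with hT
  have hcard : T.card * 2 + 26 * L = 134 * (L * L) := by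
    rw [hT, filter_or, card_union_of_disjoint]
    · rw [filter_product (fun p : ℕ × ℕ => cond0 p.1 p.2) (fun q : ℕ × ℕ => q.1 + q.2 + 1 < L),
        filter_product (fun p : ℕ × ℕ => cond1 p.1 p.2) (fun q : ℕ × ℕ => L ≤ q.1 + q.2 + 1),
        card_product, card_product, K0, K1]
      have h0 := card_low L
      have h1 := card_high L
      obtain ⟨M, rfl⟩ : ∃ M, L = M + 1 := ⟨L - 1, by omega⟩
      simp only [Nat.add_sub_cancel] at h0
      nlinarith
    · rw [disjoint_filter]
      intro r _ h1 h2
      omega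
  refine le_trans ?_ hcard.le
  have hle : (ordSet L).card ≤ T.card := by
    refine card_le_card_of_injOn
      (fun q => (((q.1 - 1) / L, (q.2 - 1) / L), ((q.1 - 1) % L, (q.2 - 1) % L))) ?_ ?_
    · rintro ⟨x, y⟩ hq
      have hq' : (x, y) ∈ ordSet L := hq
      rw [ordSet, mem_filter, mem_product, mem_Icc, mem_Icc] at hq'
      have hx1 : 1 ≤ x := hq'.1.1.1
      have hx2 : x ≤ 67 * L := hq'.1.1.2
      have hy1 : 1 ≤ y := hq'.1.2.1
      have hy2 : y ≤ 67 * L := hq'.1.2.2
      have hxy : x + y ≤ 67 * L := hq'.2.1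
      have hc1 : col L x = col L y := hq'.2.2.1
      have hc2 : col L y = col L (x + y) := hq'.2.2.2
      clear hq' hq
      unfold col at hc1 hc2
      set i := (x - 1) / L with hi
      set j := (y - 1) / L with hj
      set a := (x - 1) % L with ha
      set b := (y - 1) % L with hb
      have hxa : L * i + a = x - 1 := Nat.div_add_mod _ _
      have hyb : L * j + b = y - 1 := Nat.div_add_mod _ _
      have haL : a < L := Nat.mod_lt _ hL
      have hbL : b < L := Nat.mod_lt _ hL
      have hi67 : i < 67 := by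
        rw [hi]; exact Nat.div_lt_of_lt_mul (by rw [mul_comm]; omega)
      have hj67 : j < 67 := by
        rw [hj]; exact Nat.div_lt_of_lt_mul (by rw [mul_comm]; omega)
      have hsum : x + y - 1 = L * (i + j) + (a + b + 1) := by
        rw [mul_add]; omega
      show (((i, j), (a, b)) : (ℕ × ℕ) × (ℕ × ℕ)) ∈ (T : Set _)
      rw [Finset.mem_coe, hT, mem_filter]
      refine ⟨by simp [hi67, hj67, haL, hbL], ?_⟩
      simp only
      by_cases hlt : a + b + 1 < L
      · left
        have hdiv : (x + y - 1) / L = i + j := by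
          rw [hsum, Nat.mul_add_div hL, Nat.div_eq_of_lt hlt, add_zero]
        rw [hdiv] at hc2
        refine ⟨⟨?_, hc1, hc2⟩, hlt⟩
        rw [← hdiv]
        exact Nat.div_lt_of_lt_mul (by rw [mul_comm]; omega)
      · right
        have hdiv : (x + y - 1) / L = i + j + 1 := by
          have : x + y - 1 = L * (i + j + 1) + (a + b + 1 - L) := by
            rw [hsum, mul_add L (i + j) 1]; omega
          rw [this, Nat.mul_add_div hL, Nat.div_eq_of_lt (by omega), add_zero]
        rw [hdiv] at hc2
        refine ⟨⟨?_, hc1, hc2⟩, by omega⟩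
        rw [← hdiv]
        exact Nat.div_lt_of_lt_mul (by rw [mul_comm]; omega)
    · rintro ⟨x, y⟩ hq ⟨x', y'⟩ hq' heq
      have h1 : (x, y) ∈ ordSet L := hq
      have h2 : (x', y') ∈ ordSet L := hq'
      rw [ordSet, mem_filter, mem_product, mem_Icc, mem_Icc] at h1 h2
      simp only [Prod.mk.injEq] at heq
      obtain ⟨⟨e1, e2⟩, e3, e4⟩ := heq
      have hx : x - 1 = x' - 1 := by
        rw [← Nat.div_add_mod (x - 1) L, ← Nat.div_add_mod (x' - 1) L, e1, e3]
      have hy : y - 1 = y' - 1 := by
        rw [← Nat.div_add_mod (y - 1) L, ← Nat.div_add_mod (y' - 1) L, e2, e4]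
      have a1 := h1.1.1.1
      have a2 := h1.1.2.1
      have a3 := h2.1.1.1
      have a4 := h2.1.2.1
      simp only at a1 a2 a3 a4
      rw [Prod.mk.injEq]
      omega
  omega

lemma mono_le (L n : ℕ) (hn : n ≤ 67 * L) :
    schurMono (col L) n * 2 ≤ (ordSet L).card + 67 * L := by
  set U := (ordSet L).filter (fun q => q.1 ≤ q.2) with hU
  set V := (ordSet L).filter (fun q => q.2 ≤ q.1) with hV
  have h1 : schurMono (col L) n ≤ U.card := by
    unfold schurMono
    refine card_le_card ?_
    intro q hq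
    rw [mem_filter, mem_product, mem_Icc, mem_Icc] at hq
    rw [hU, mem_filter, ordSet, mem_filter, mem_product, mem_Icc, mem_Icc]
    refine ⟨⟨⟨⟨hq.1.1.1, by omega⟩, ⟨hq.1.2.1, by omega⟩⟩, by omega, hq.2.2.2.1, hq.2.2.2.2⟩, hq.2.1⟩
  have h2 : U.card = V.card := by
    refine card_bij (fun q _ => (q.2, q.1)) ?_ ?_ ?_
    · intro q hq
      rw [hU, mem_filter, ordSet, mem_filter, mem_product] at hq
      rw [hV, mem_filter, ordSet, mem_filter, mem_product]
      obtain ⟨⟨⟨m1, m2⟩, s, c1, c2⟩, l⟩ := hq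
      refine ⟨⟨⟨m2, m1⟩, by simpa [add_comm] using s, c1.symm, ?_⟩, l⟩
      simp only
      rw [add_comm]
      exact c1.trans c2
    · intro p _ q _ h
      simp only [Prod.mk.injEq] at h
      exact Prod.ext h.2 h.1
    · intro q hq
      refine ⟨(q.2, q.1), ?_, rfl⟩
      rw [hV, mem_filter, ordSet, mem_filter, mem_product] at hq
      rw [hU, mem_filter, ordSet, mem_filter, mem_product]
      obtain ⟨⟨⟨m1, m2⟩, s, c1, c2⟩, l⟩ := hq
      refine ⟨⟨⟨m2, m1⟩, by simpa [add_comm] using s, c1.symm, ?_⟩, l⟩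
      simp only
      rw [add_comm]
      exact c1.trans c2
  have h3 : (U ∪ V).card + (U ∩ V).card = U.card + V.card := card_union_add_card_inter U V
  have h4 : (U ∪ V).card ≤ (ordSet L).card := by
    refine card_le_card ?_
    rw [union_subset_iff]
    exact ⟨filter_subset _ _, filter_subset _ _⟩
  have h5 : (U ∩ V).card ≤ 67 * L := by
    have : (U ∩ V).card ≤ (Icc 1 (67 * L)).card := by
      refine card_le_card_of_injOn (fun q => q.1) ?_ ?_
      · intro q hq
        have hq' : q ∈ U ∩ V := hq
        rw [mem_inter, hU, mem_filter, ordSet, mem_filter, mem_product] at hq'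
        exact hq'.1.1.1.1
      · intro p hp q hq h
        have hp' : p ∈ U ∩ V := hp
        have hq' : q ∈ U ∩ V := hq
        rw [mem_inter, hU, hV, mem_filter, mem_filter] at hp' hq'
        have e1 : p.1 = p.2 := le_antisymm hp'.1.2 hp'.2.2
        have e2 : q.1 = q.2 := le_antisymm hq'.1.2 hq'.2.2
        simp only at h
        exact Prod.ext h (by rw [← e1, ← e2, h])
    rwa [Nat.card_Icc, Nat.add_sub_cancel] at this
  omega

theorem upper (n : ℕ) : (schurMin 3 n : ℝ) ≤ (n : ℝ) ^ 2 / 134 + 2 * n + 60 := by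
  set L := (n + 66) / 67 with hL
  have hnL : n ≤ 67 * L := by omega
  have hL2 : 67 * L ≤ n + 66 := by omega
  have h1 : schurMin 3 n ≤ schurMono (col L) n := Nat.sInf_le ⟨col L, rfl⟩
  have h2 := mono_le L n hnL
  have key : schurMono (col L) n * 4 ≤ 134 * (L * L) + 108 * L := by
    rcases Nat.eq_zero_or_pos L with h0 | hpos
    · have hn0 : n = 0 := by omega
      have : schurMono (col L) n = 0 := by
        rw [hn0]; unfold schurMono; simp
      omega
    · have := ord_card L hpos
      omega
  have h3 : (schurMin 3 n : ℝ) * 4 ≤ 134 * ((L : ℝ) * L) + 108 * L := by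
    have : schurMin 3 n * 4 ≤ 134 * (L * L) + 108 * L := by omega
    exact_mod_cast this
  have h4 : (67 : ℝ) * L ≤ n + 66 := by exact_mod_cast hL2
  have h5 : (0 : ℝ) ≤ L := Nat.cast_nonneg L
  have h6 : (0 : ℝ) ≤ n := Nat.cast_nonneg n
  have h7 : (67 * (L : ℝ)) * (67 * L) ≤ (n + 66) * (n + 66) :=
    mul_le_mul h4 h4 (by positivity) (by positivity)
  nlinarith

end Pool.Agent.Helper33.Schur
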