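import Mathlib

open Set

namespace Pool.Agent.Helper33.Wander

/-- Points and vectors of three-space. -/
abbrev E := Fin 3 → ℝ

/-- The closed tetrahedron with vertices `(0,0,0)`, `(1,0,0)`, `(1/2,1/2,1/2)`,
`(1/2,1/2,-1/2)`: the closure of the fluid domain
`M = {x | |x₂| < x₁ < x₀ ∧ x₀ + x₁ < 1}`. -/
def Mbar : Set E := {x | x 1 ≤ x 0 ∧ x 2 ≤ x 1 ∧ -x 2 ≤ x 1 ∧ x 0 + x 1 ≤ 1}

/-- The `j`-th partial derivative of a function on the closed tetrahedron (up to the boundary). -/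
noncomputable def pd (j : Fin 3) (f : E → ℝ) (x : E) : ℝ :=
  fderivWithin ℝ f Mbar x (Pi.single j 1)

/-- `v` is a divergence-free vector field of class `C^{1,α}` up to the boundary on the closed
tetrahedron, tangent to its four faces. -/
def IsVelocity (α : ℝ) (v : E → E) : Prop :=
  (∀ i, ContDiffOn ℝ 1 (fun x => v x i) Mbar) ∧
  (∃ C : ℝ, ∀ i j, ∀ x ∈ Mbar, ∀ y ∈ Mbar,
    |pd j (fun z => v z i) x - pd j (fun z => v z i) y| ≤ C * ‖x - y‖ ^ α) ∧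
  (∀ x ∈ Mbar, ∑ i, pd i (fun z => v z i) x = 0) ∧
  (∀ x ∈ Mbar, x 0 = x 1 → v x 0 = v x 1) ∧
  (∀ x ∈ Mbar, x 1 = x 2 → v x 1 = v x 2) ∧
  (∀ x ∈ Mbar, x 1 = -x 2 → v x 1 = -v x 2) ∧
  (∀ x ∈ Mbar, x 0 + x 1 = 1 → v x 0 + v x 1 = 0)

/-- `v` and `w` are at distance at most `r` in the `C^{1,α}` norm on the closed tetrahedron. -/
def Close (α r : ℝ) (v w : E → E) : Prop :=
  ∀ i, ∀ x ∈ Mbar, |v x i - w x i| ≤ r ∧
    ∀ j, |pd j (fun z => v z i) x - pd j (fun z => w z i) x| ≤ r ∧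
      ∀ y ∈ Mbar, |(pd j (fun z => v z i) x - pd j (fun z => w z i) x) -
        (pd j (fun z => v z i) y - pd j (fun z => w z i) y)| ≤ r * ‖x - y‖ ^ α

/-- `u` is a classical solution on `[0,t]` of the incompressible Euler equations on the
tetrahedron. -/
def IsEulerSolution (α t : ℝ) (u : ℝ → E → E) : Prop :=
  (∀ s ∈ Icc 0 t, IsVelocity α (u s)) ∧
  (∀ i j, ContinuousOn (fun z : ℝ × E => pd j (fun x => u z.1 x i) z.2) (Icc 0 t ×ˢ Mbar)) ∧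
  ∃ p : ℝ → E → ℝ,
    (∀ s ∈ Ioo 0 t, DifferentiableOn ℝ (p s) Mbar) ∧
    (∀ i, ContinuousOn (fun z : ℝ × E => pd i (p z.1) z.2) (Ioo 0 t ×ˢ Mbar)) ∧
    ∀ s ∈ Ioo 0 t, ∀ x ∈ Mbar, ∀ i, HasDerivAt (fun τ => u τ x i)
      (-(∑ j, u s x j * pd j (fun y => u s y i) x) - pd i (p s) x) s

/-- No solution starting in the closed `C^{1,α}` ball of radius `r` about `v₀` is in that ball at
a time `t ≥ T`. -/
def NoReturn (α T r : ℝ) (v₀ : E → E) : Prop :=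
  ∀ t : ℝ, T ≤ t → ∀ u : ℝ → E → E, IsEulerSolution α t u →
    Close α r v₀ (u 0) → ¬ Close α r v₀ (u t)

end Pool.Agent.Helper33.Wander
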