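import Pool.Agent.Helper33.WanderProof

open Set Filter Topology

namespace Pool.Agent.Helper33.Wander

/-! ### No return -/

lemma rate_close {α r : ℝ} {v w : E → E} (h : Close α r v w) {e : E} (he : ∀ j, |e j| ≤ 1) :
    |rate v e - rate w e| ≤ 3 * r := by
  have h0 := (h 0 0 zero_mem).2
  have h1 : rate v e - rate w e =
      ∑ j, e j * (pd j (fun z => v z 0) 0 - pd j (fun z => w z 0) 0) := by
    simp only [rate, dd, ← Finset.sum_sub_distrib, mul_sub]
  rw [h1]
  calc |∑ j, e j * (pd j (fun z => v z 0) 0 - pd j (fun z => w z 0) 0)|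
      ≤ ∑ j, |e j * (pd j (fun z => v z 0) 0 - pd j (fun z => w z 0) 0)| :=
        Finset.abs_sum_le_sum_abs _ _
    _ ≤ ∑ _j : Fin 3, r := by
        refine Finset.sum_le_sum fun j _ => ?_
        rw [abs_mul]
        calc |e j| * |pd j (fun z => v z 0) 0 - pd j (fun z => w z 0) 0|
            ≤ 1 * |pd j (fun z => v z 0) 0 - pd j (fun z => w z 0) 0| :=
              mul_le_mul_of_nonneg_right (he j) (abs_nonneg _)
          _ ≤ r := by rw [one_mul]; exact (h0 j).1
    _ = 3 * r := by simp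

lemma abs_e1 (j : Fin 3) : |e1 j| ≤ 1 := by fin_cases j <;> simp [e1]
lemma abs_e2 (j : Fin 3) : |e2 j| ≤ 1 := by fin_cases j <;> simp [e2]
lemma abs_e3 (j : Fin 3) : |e3 j| ≤ 1 := by fin_cases j <;> simp [e3]

/-- The three rates. -/
noncomputable def rates (v : E → E) : ℝ × ℝ × ℝ := (rate v e1, rate v e2, rate v e3)

lemma rates_close {α r : ℝ} {v w : E → E} (h : Close α r v w) :
    dist (rates w) (rates v) ≤ 3 * r := by
  rw [dist_comm, Prod.dist_eq, Prod.dist_eq]
  refine max_le ?_ (max_le ?_ ?_) <;> rw [Real.dist_eq]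
  · exact rate_close h abs_e1
  · exact rate_close h abs_e2
  · exact rate_close h abs_e3

theorem noReturn_of_ne {α : ℝ} {v₀ : E → E} (hv : IsVelocity α v₀)
    (hv₀ : ∃ i j, pd j (fun x => v₀ x i) 0 ≠ 0) {T : ℝ} (hT : 0 < T) :
    ∃ r > 0, NoReturn α T r v₀ := by
  let R : ℝ × ℝ × ℝ → ℝ := fun z => -(z.1 * z.2.1 * z.2.2)
  let q : ℝ × ℝ × ℝ → ℝ := fun z => z.1 ^ 2 + z.2.1 ^ 2 + z.2.2 ^ 2
  have hRc : Continuous R := by fun_prop
  have hqc : Continuous q := by fun_prop
  have hq0 : 0 < q (rates v₀) := by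
    by_contra hle
    obtain ⟨i, j, hij⟩ := hv₀
    apply hij
    have hle' : rate v₀ e1 ^ 2 + rate v₀ e2 ^ 2 + rate v₀ e3 ^ 2 ≤ 0 := not_lt.mp hle
    have s1 := sq_nonneg (rate v₀ e1)
    have s2 := sq_nonneg (rate v₀ e2)
    have s3 := sq_nonneg (rate v₀ e3)
    refine pd_eq_zero hv ?_ ?_ ?_ i j <;> apply pow_eq_zero_iff (two_ne_zero) |>.mp <;> linarith
  obtain ⟨Q, hQ⟩ : ∃ Q, Q = q (rates v₀) / 2 := ⟨_, rfl⟩
  obtain ⟨B, hB⟩ : ∃ B, B = |R (rates v₀)| + 1 := ⟨_, rfl⟩
  have hQ0 : 0 < Q := by rw [hQ]; positivity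
  have hB0 : 0 < B := by rw [hB]; positivity
  obtain ⟨c, hc⟩ : ∃ c, c = min T (Q / (12 * B)) * Q ^ 2 / 24 := ⟨_, rfl⟩
  have hc0 : 0 < c := by
    have : 0 < min T (Q / (12 * B)) := lt_min hT (by positivity)
    rw [hc]
    positivity
  have hev : ∀ᶠ z in 𝓝 (rates v₀), |R z - R (rates v₀)| < min (c / 2) 1 ∧ Q < q z := by
    refine Filter.Eventually.and ?_ ?_
    · have h1 : Tendsto (fun z => |R z - R (rates v₀)|) (𝓝 (rates v₀)) (𝓝 0) := by
        have : Continuous (fun z => |R z - R (rates v₀)|) := (hRc.sub continuous_const).abs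
        simpa using this.tendsto (rates v₀)
      exact h1.eventually (gt_mem_nhds (lt_min (by linarith) one_pos))
    · exact (hqc.tendsto (rates v₀)).eventually (lt_mem_nhds (by rw [hQ]; linarith))
  rw [Metric.eventually_nhds_iff] at hev
  obtain ⟨δ, hδ, hev⟩ := hev
  refine ⟨δ / 6, by positivity, ?_⟩
  intro t ht u hu hu0 hut
  have h0 := hev (show dist (rates (u 0)) (rates v₀) < δ from
    (rates_close hu0).trans_lt (by linarith))
  have h1 := hev (show dist (rates (u t)) (rates v₀) < δ from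
    (rates_close hut).trans_lt (by linarith))
  have hd := drift (R := fun τ => R (rates (u τ))) (q := fun τ => q (rates (u τ))) hT ht hQ0 hB0
    (((rate_continuousOn hu e1).mul (rate_continuousOn hu e2)).mul
      (rate_continuousOn hu e3)).neg
    ((((rate_continuousOn hu e1).pow 2).add ((rate_continuousOn hu e2).pow 2)).add
      ((rate_continuousOn hu e3).pow 2))
    (fun s hs => (system hu hs).1) (fun s hs => (system hu hs).2) h0.2.le (by
      have h2 : |R (rates (u 0)) - R (rates v₀)| < 1 := h0.1.trans_le (min_le_right _ _)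
      have h3 := abs_lt.mp h2
      have h4 := neg_abs_le (R (rates v₀))
      show -B ≤ R (rates (u 0))
      rw [hB]
      linarith)
  have h2 : |R (rates (u 0)) - R (rates v₀)| < c / 2 := h0.1.trans_le (min_le_left _ _)
  have h3 : |R (rates (u t)) - R (rates v₀)| < c / 2 := h1.1.trans_le (min_le_left _ _)
  have h4 := abs_lt.mp h2
  have h5 := abs_lt.mp h3
  rw [← hc] at hd
  change c ≤ R (rates (u t)) - R (rates (u 0)) at hd
  linarith

/-! ### Existence and density -/

/-- A field of class `C²` on the whole space, divergence free and tangent to the faces, is a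
velocity field. -/
lemma isVelocity_of_contDiff {α : ℝ} (hα0 : 0 < α) (hα1 : α < 1) {f : E → E}
    (hf : ∀ i, ContDiff ℝ 2 (fun x => f x i))
    (hdiv : ∀ x, ∑ i, fderiv ℝ (fun z => f z i) x (Pi.single i 1) = 0)
    (h1 : ∀ x ∈ Mbar, x 0 = x 1 → f x 0 = f x 1)
    (h2 : ∀ x ∈ Mbar, x 1 = x 2 → f x 1 = f x 2)
    (h3 : ∀ x ∈ Mbar, x 1 = -x 2 → f x 1 = -f x 2)
    (h4 : ∀ x ∈ Mbar, x 0 + x 1 = 1 → f x 0 + f x 1 = 0) :
    IsVelocity α f := by
  have hD : ∀ i j, ∀ x ∈ Mbar, pd j (fun z => f z i) x =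
      fderiv ℝ (fun z => f z i) x (Pi.single j 1) := by
    intro i j x hx
    unfold pd
    rw [((hf i).differentiable (by norm_num) x).fderivWithin (uniqueDiffOn_Mbar x hx)]
  refine ⟨fun i => ((hf i).contDiffOn.of_le (by norm_num)), ?_, ?_, h1, h2, h3, h4⟩
  · have key : ∀ i j, ∃ C : ℝ, 0 ≤ C ∧ ∀ x ∈ Mbar, ∀ y ∈ Mbar,
        |pd j (fun z => f z i) x - pd j (fun z => f z i) y| ≤ C * ‖x - y‖ ^ α := by
      intro i j
      have hf1 : ContDiff ℝ 1 (fun x => fderiv ℝ (fun z => f z i) x (Pi.single j 1)) :=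
        ((hf i).fderiv_right (by norm_num)).clm_apply contDiff_const
      have hcont : Continuous (fderiv ℝ (fun x => fderiv ℝ (fun z => f z i) x (Pi.single j 1))) :=
        hf1.continuous_fderiv (by norm_num)
      obtain ⟨K, hK⟩ := IsCompact.exists_bound_of_continuousOn isCompact_Mbar hcont.continuousOn
      obtain ⟨d, hd⟩ := isBounded_iff_forall_norm_le.mp isCompact_Mbar.isBounded
      have hd0 : 0 ≤ d := (norm_nonneg _).trans (hd 0 zero_mem)
      have hK0 : 0 ≤ K := (norm_nonneg _).trans (hK 0 zero_mem)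
      refine ⟨K * (2 * d) ^ (1 - α), by positivity, fun x hx y hy => ?_⟩
      rw [hD i j x hx, hD i j y hy]
      have hlip : ‖fderiv ℝ (fun z => f z i) x (Pi.single j 1) -
          fderiv ℝ (fun z => f z i) y (Pi.single j 1)‖ ≤ K * ‖x - y‖ :=
        convex_Mbar.norm_image_sub_le_of_norm_fderiv_le
          (fun z _ => (hf1.differentiable (by norm_num)) z) hK hy hx
      have hxy : ‖x - y‖ ≤ 2 * d := by
        calc ‖x - y‖ ≤ ‖x‖ + ‖y‖ := norm_sub_le _ _
          _ ≤ 2 * d := by linarith [hd x hx, hd y hy]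
      have hsplit : ‖x - y‖ ≤ (2 * d) ^ (1 - α) * ‖x - y‖ ^ α := by
        calc ‖x - y‖ = ‖x - y‖ ^ (1 - α + α) := by rw [sub_add_cancel, Real.rpow_one]
          _ = ‖x - y‖ ^ (1 - α) * ‖x - y‖ ^ α :=
              Real.rpow_add_of_nonneg (norm_nonneg _) (by linarith) hα0.le
          _ ≤ (2 * d) ^ (1 - α) * ‖x - y‖ ^ α := by
              gcongr
      rw [← Real.norm_eq_abs]
      calc _ ≤ K * ‖x - y‖ := hlip
        _ ≤ K * ((2 * d) ^ (1 - α) * ‖x - y‖ ^ α) := by gcongr
        _ = K * (2 * d) ^ (1 - α) * ‖x - y‖ ^ α := by ring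
    choose C hC0 hC using key
    refine ⟨∑ i, ∑ j, C i j, fun i j x hx y hy => (hC i j x hx y hy).trans ?_⟩
    gcongr
    calc C i j ≤ ∑ j, C i j :=
          Finset.single_le_sum (fun k _ => hC0 i k) (Finset.mem_univ j)
      _ ≤ ∑ i, ∑ j, C i j :=
          Finset.single_le_sum (f := fun i => ∑ j, C i j)
            (fun k _ => Finset.sum_nonneg fun l _ => hC0 k l) (Finset.mem_univ i)
  · intro x hx
    rw [← hdiv x]
    exact Finset.sum_congr rfl fun i _ => hD i i x hx

/-- An explicit polynomial velocity field. -/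
noncomputable def w0 (x : E) : E :=
  ![(2 * x 1 - 1) * (x 1 - x 2) + 2 * (x 0 - x 0 ^ 2 - x 1 + x 1 ^ 2),
    -((1 - 2 * x 0) * (x 1 - x 2)), (1 - 2 * x 0) * (x 1 - x 2)]

lemma line (x h : E) (i : Fin 3) :
    HasDerivAt (fun τ : ℝ => (x + τ • h) i) (h i) 0 := by
  have : HasDerivAt (fun τ : ℝ => x i + τ * h i) (h i) 0 := by
    simpa using ((hasDerivAt_id (0 : ℝ)).mul_const (h i)).const_add (x i)
  exact this

lemma contDiff_w0 (i : Fin 3) : ContDiff ℝ 2 (fun x => w0 x i) := by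
  fin_cases i
  · show ContDiff ℝ 2 (fun x : E =>
      (2 * x 1 - 1) * (x 1 - x 2) + 2 * (x 0 - x 0 ^ 2 - x 1 + x 1 ^ 2))
    fun_prop
  · show ContDiff ℝ 2 (fun x : E => -((1 - 2 * x 0) * (x 1 - x 2)))
    fun_prop
  · show ContDiff ℝ 2 (fun x : E => (1 - 2 * x 0) * (x 1 - x 2))
    fun_prop

lemma hasDerivAt_w0 (x h : E) (i : Fin 3) :
    HasDerivAt (fun τ : ℝ => w0 (x + τ • h) i) (fderiv ℝ (fun z => w0 z i) x h) 0 := by
  have h1 : HasFDerivAt (fun z => w0 z i) (fderiv ℝ (fun z => w0 z i) x) (x + (0 : ℝ) • h) := by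
    rw [zero_smul, add_zero]
    exact ((contDiff_w0 i).differentiable (by norm_num) x).hasFDerivAt
  have h2 : HasDerivAt (fun τ : ℝ => x + τ • h) h 0 := by
    simpa using ((hasDerivAt_id (0 : ℝ)).smul_const h).const_add x
  exact h1.comp_hasDerivAt 0 h2

lemma fderiv_w0_zero (x h : E) : fderiv ℝ (fun z => w0 z 0) x h =
    2 * h 1 * (x 1 - x 2) + (2 * x 1 - 1) * (h 1 - h 2) +
      2 * (h 0 - 2 * x 0 * h 0 - h 1 + 2 * x 1 * h 1) := by
  have l0 := line x h 0
  have l1 := line x h 1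
  have l2 := line x h 2
  have hh : HasDerivAt (fun τ : ℝ => w0 (x + τ • h) 0) _ 0 :=
    (((l1.const_mul 2).sub_const 1).mul (l1.sub l2)).add
      ((((l0.sub (l0.pow 2)).sub l1).add (l1.pow 2)).const_mul 2)
  rw [(hasDerivAt_w0 x h 0).unique hh]
  simp

lemma fderiv_w0_one (x h : E) : fderiv ℝ (fun z => w0 z 1) x h =
    -(-(2 * h 0) * (x 1 - x 2) + (1 - 2 * x 0) * (h 1 - h 2)) := by
  have l0 := line x h 0
  have l1 := line x h 1
  have l2 := line x h 2
  have hh : HasDerivAt (fun τ : ℝ => w0 (x + τ • h) 1) _ 0 :=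
    (((l0.const_mul 2).const_sub 1).mul (l1.sub l2)).neg
  rw [(hasDerivAt_w0 x h 1).unique hh]
  simp

lemma fderiv_w0_two (x h : E) : fderiv ℝ (fun z => w0 z 2) x h =
    -(2 * h 0) * (x 1 - x 2) + (1 - 2 * x 0) * (h 1 - h 2) := by
  have l0 := line x h 0
  have l1 := line x h 1
  have l2 := line x h 2
  have hh : HasDerivAt (fun τ : ℝ => w0 (x + τ • h) 2) _ 0 :=
    ((l0.const_mul 2).const_sub 1).mul (l1.sub l2)
  rw [(hasDerivAt_w0 x h 2).unique hh]
  simp

lemma isVelocity_w0 {α : ℝ} (hα0 : 0 < α) (hα1 : α < 1) : IsVelocity α w0 := by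
  refine isVelocity_of_contDiff hα0 hα1 contDiff_w0 ?_ ?_ ?_ ?_ ?_
  · intro x
    rw [Fin.sum_univ_three, fderiv_w0_zero, fderiv_w0_one, fderiv_w0_two]
    simp
    ring
  · intro x _ hx
    simp only [w0]
    simp [hx]
    ring
  · intro x _ hx
    simp only [w0]
    simp [hx]
  · intro x _ hx
    simp only [w0]
    simp
  · intro x _ hx
    have : x 0 = 1 - x 1 := by linarith
    simp only [w0]
    simp [this]
    ring

lemma w0_ne : pd 0 (fun x => w0 x 0) 0 = 2 := by
  unfold pd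
  rw [((contDiff_w0 0).differentiable (by norm_num) 0).fderivWithin
    (uniqueDiffOn_Mbar 0 zero_mem), fderiv_w0_zero]
  simp

lemma pd_add_smul {α : ℝ} {v w : E → E} (hv : IsVelocity α v) (hw : IsVelocity α w) (ε : ℝ)
    (i j : Fin 3) {x : E} (hx : x ∈ Mbar) :
    pd j (fun z => v z i + ε * w z i) x =
      pd j (fun z => v z i) x + ε * pd j (fun z => w z i) x := by
  have hu := uniqueDiffOn_Mbar x hx
  have h1 : HasFDerivWithinAt (fun y => v y i + ε * w y i)
      (fderivWithin ℝ (fun z => v z i) Mbar x + ε • fderivWithin ℝ (fun z => w z i) Mbar x)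
      Mbar x :=
    (hv.diff i x hx).hasFDerivWithinAt.add ((hw.diff i x hx).hasFDerivWithinAt.const_mul ε)
  unfold pd
  rw [h1.fderivWithin hu]
  rfl

lemma isVelocity_add_smul {α : ℝ} {v w : E → E} (hv : IsVelocity α v) (hw : IsVelocity α w)
    (ε : ℝ) : IsVelocity α (fun x i => v x i + ε * w x i) := by
  refine ⟨fun i => (hv.1 i).add (contDiffOn_const.mul (hw.1 i)), ?_, ?_, ?_, ?_, ?_, ?_⟩
  · obtain ⟨C1, h1⟩ := hv.2.1
    obtain ⟨C2, h2⟩ := hw.2.1
    refine ⟨C1 + |ε| * C2, fun i j x hx y hy => ?_⟩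
    rw [pd_add_smul hv hw ε i j hx, pd_add_smul hv hw ε i j hy]
    have : pd j (fun z => v z i) x + ε * pd j (fun z => w z i) x -
        (pd j (fun z => v z i) y + ε * pd j (fun z => w z i) y) =
        (pd j (fun z => v z i) x - pd j (fun z => v z i) y) +
        ε * (pd j (fun z => w z i) x - pd j (fun z => w z i) y) := by ring
    rw [this]
    calc _ ≤ |pd j (fun z => v z i) x - pd j (fun z => v z i) y| +
          |ε * (pd j (fun z => w z i) x - pd j (fun z => w z i) y)| := abs_add_le _ _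
      _ = |pd j (fun z => v z i) x - pd j (fun z => v z i) y| +
          |ε| * |pd j (fun z => w z i) x - pd j (fun z => w z i) y| := by rw [abs_mul]
      _ ≤ C1 * ‖x - y‖ ^ α + |ε| * (C2 * ‖x - y‖ ^ α) :=
          add_le_add (h1 i j x hx y hy)
            (mul_le_mul_of_nonneg_left (h2 i j x hx y hy) (abs_nonneg _))
      _ = (C1 + |ε| * C2) * ‖x - y‖ ^ α := by ring
  · intro x hx
    have h1 := hv.2.2.1 x hx
    have h2 := hw.2.2.1 x hx
    calc _ = ∑ i, (pd i (fun z => v z i) x + ε * pd i (fun z => w z i) x) :=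
          Finset.sum_congr rfl fun i _ => pd_add_smul hv hw ε i i hx
      _ = 0 := by rw [Finset.sum_add_distrib, ← Finset.mul_sum, h1, h2, mul_zero, add_zero]
  · intro x hx hx'
    have h1 := hv.2.2.2.1 x hx hx'
    have h2 := hw.2.2.2.1 x hx hx'
    simp only [h1, h2]
  · intro x hx hx'
    have h1 := hv.2.2.2.2.1 x hx hx'
    have h2 := hw.2.2.2.2.1 x hx hx'
    simp only [h1, h2]
  · intro x hx hx'
    have h1 := hv.2.2.2.2.2.1 x hx hx'
    have h2 := hw.2.2.2.2.2.1 x hx hx'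
    simp only [h1, h2]
    ring
  · intro x hx hx'
    have h1 := hv.2.2.2.2.2.2 x hx hx'
    have h2 := hw.2.2.2.2.2.2 x hx hx'
    linear_combination h1 + ε * h2

lemma exists_close {α : ℝ} {w : E → E} (hw : IsVelocity α w) :
    ∃ K : ℝ, 0 < K ∧ ∀ (v : E → E), IsVelocity α v → ∀ ε r : ℝ, |ε| * K ≤ r →
      Close α r v (fun x i => v x i + ε * w x i) := by
  have k1 : ∀ i, ∃ K : ℝ, ∀ x ∈ Mbar, ‖w x i‖ ≤ K := fun i =>
    isCompact_Mbar.exists_bound_of_continuousOn (hw.1 i).continuousOn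
  have k2 : ∀ i j, ∃ K : ℝ, ∀ x ∈ Mbar, ‖pd j (fun z => w z i) x‖ ≤ K := fun i j => by
    refine isCompact_Mbar.exists_bound_of_continuousOn ?_
    have h1 : ContinuousOn (fderivWithin ℝ (fun z => w z i) Mbar) Mbar :=
      (hw.1 i).continuousOn_fderivWithin uniqueDiffOn_Mbar (by norm_num)
    exact h1.clm_apply continuousOn_const
  choose K1 hK1 using k1
  choose K2 hK2 using k2
  obtain ⟨K3, hK3⟩ := hw.2.1
  have hK10 : ∀ i, 0 ≤ K1 i := fun i => (norm_nonneg _).trans (hK1 i 0 zero_mem)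
  have hK20 : ∀ i j, 0 ≤ K2 i j := fun i j => (norm_nonneg _).trans (hK2 i j 0 zero_mem)
  refine ⟨(∑ i, K1 i) + (∑ i, ∑ j, K2 i j) + |K3| + 1, ?_, ?_⟩
  · have := Finset.sum_nonneg (fun i (_ : i ∈ Finset.univ) => hK10 i)
    have := Finset.sum_nonneg (fun i (_ : i ∈ Finset.univ) =>
      Finset.sum_nonneg (fun j (_ : j ∈ Finset.univ) => hK20 i j))
    positivity
  · intro v hv ε r hr
    have s1 := Finset.sum_nonneg (fun i (_ : i ∈ Finset.univ) => hK10 i)
    have s2 := Finset.sum_nonneg (fun i (_ : i ∈ Finset.univ) =>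
      Finset.sum_nonneg (fun j (_ : j ∈ Finset.univ) => hK20 i j))
    have s3 := abs_nonneg K3
    have big : ∀ k : ℝ, k ≤ (∑ i, K1 i) + (∑ i, ∑ j, K2 i j) + |K3| + 1 → |ε| * k ≤ r :=
      fun k hk => (mul_le_mul_of_nonneg_left hk (abs_nonneg ε)).trans hr
    intro i x hx
    refine ⟨?_, fun j => ⟨?_, fun y hy => ?_⟩⟩
    · have : v x i - (v x i + ε * w x i) = -(ε * w x i) := by ring
      rw [this, abs_neg, abs_mul]
      refine (mul_le_mul_of_nonneg_left (hK1 i x hx) (abs_nonneg ε)).trans (big _ ?_)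
      have := Finset.single_le_sum (fun k _ => hK10 k) (Finset.mem_univ i)
      linarith
    · rw [pd_add_smul hv hw ε i j hx]
      have : pd j (fun z => v z i) x - (pd j (fun z => v z i) x + ε * pd j (fun z => w z i) x) =
        -(ε * pd j (fun z => w z i) x) := by ring
      rw [this, abs_neg, abs_mul]
      refine (mul_le_mul_of_nonneg_left (hK2 i j x hx) (abs_nonneg ε)).trans (big _ ?_)
      have h1 := Finset.single_le_sum (fun k _ => hK20 i k) (Finset.mem_univ j)
      have h2 := Finset.single_le_sum (f := fun i => ∑ j, K2 i j)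
            (fun k _ => Finset.sum_nonneg fun l _ => hK20 k l) (Finset.mem_univ i)
      linarith
    · rw [pd_add_smul hv hw ε i j hx, pd_add_smul hv hw ε i j hy]
      have : pd j (fun z => v z i) x - (pd j (fun z => v z i) x + ε * pd j (fun z => w z i) x) -
          (pd j (fun z => v z i) y - (pd j (fun z => v z i) y + ε * pd j (fun z => w z i) y)) =
          -(ε * (pd j (fun z => w z i) x - pd j (fun z => w z i) y)) := by ring
      rw [this, abs_neg, abs_mul]
      calc |ε| * |pd j (fun z => w z i) x - pd j (fun z => w z i) y|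
          ≤ |ε| * (K3 * ‖x - y‖ ^ α) :=
            mul_le_mul_of_nonneg_left (hK3 i j x hx y hy) (abs_nonneg ε)
        _ ≤ |ε| * (|K3| * ‖x - y‖ ^ α) := by
            gcongr
            exact le_abs_self K3
        _ = (|ε| * |K3|) * ‖x - y‖ ^ α := by ring
        _ ≤ r * ‖x - y‖ ^ α := by
            gcongr
            exact big _ (by linarith)

/-- density -/
theorem dense_ne {α : ℝ} (hα0 : 0 < α) (hα1 : α < 1) {v : E → E} (hv : IsVelocity α v) {r : ℝ}
    (hr : 0 < r) :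
    ∃ v₀, IsVelocity α v₀ ∧ Close α r v v₀ ∧ ∃ i j, pd j (fun x => v₀ x i) 0 ≠ 0 := by
  have hw := isVelocity_w0 hα0 hα1
  obtain ⟨K, hK, hKc⟩ := exists_close hw
  -- one of two values of `ε` works
  by_cases h : pd 0 (fun x => v x 0) 0 = 0
  · refine ⟨_, isVelocity_add_smul hv hw (r / K), hKc v hv (r / K) r ?_, 0, 0, ?_⟩
    · rw [abs_of_pos (by positivity)]
      exact (div_mul_cancel₀ r hK.ne').le
    · rw [pd_add_smul hv hw _ 0 0 zero_mem, h, w0_ne]
      positivity
  · refine ⟨_, isVelocity_add_smul hv hw 0, hKc v hv 0 r ?_, 0, 0, ?_⟩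
    · simp [hr.le]
    · rw [pd_add_smul hv hw _ 0 0 zero_mem]
      simpa using h

end Pool.Agent.Helper33.Wander
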