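import Pool.Agent.Helper33.WanderDefs

open Set Filter Topology Interval

namespace Pool.Agent.Helper33.Wander

/-! ### Geometry of the tetrahedron -/

lemma convex_Mbar : Convex ℝ Mbar := by
  intro x hx y hy a b ha hb hab
  obtain ⟨hx1, hx2, hx3, hx4⟩ := hx
  obtain ⟨hy1, hy2, hy3, hy4⟩ := hy
  refine ⟨?_, ?_, ?_, ?_⟩ <;> simp only [Pi.add_apply, Pi.smul_apply, smul_eq_mul]
  · nlinarith
  · nlinarith
  · nlinarith
  · nlinarith

lemma interior_nonempty : (interior Mbar).Nonempty := by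
  refine ⟨![1 / 2, 1 / 4, 0], ?_⟩
  rw [mem_interior]
  refine ⟨{x | x 1 < x 0 ∧ x 2 < x 1 ∧ -x 2 < x 1 ∧ x 0 + x 1 < 1}, ?_, ?_, ?_⟩
  · intro x hx
    exact ⟨hx.1.le, hx.2.1.le, hx.2.2.1.le, hx.2.2.2.le⟩
  · have c : ∀ i : Fin 3, Continuous (fun x : E => x i) := fun i => continuous_apply i
    exact (isOpen_lt (c 1) (c 0)).inter ((isOpen_lt (c 2) (c 1)).inter
      ((isOpen_lt (c 2).neg (c 1)).inter (isOpen_lt ((c 0).add (c 1)) continuous_const)))
  · refine ⟨?_, ?_, ?_, ?_⟩ <;> simp <;> norm_num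

lemma uniqueDiffOn_Mbar : UniqueDiffOn ℝ Mbar := uniqueDiffOn_convex convex_Mbar interior_nonempty

lemma zero_mem : (0 : E) ∈ Mbar := by
  refine ⟨?_, ?_, ?_, ?_⟩ <;> simp

lemma zero_mem_closure_interior : (0 : E) ∈ closure (interior Mbar) := by
  rw [convex_Mbar.closure_interior_eq_closure_of_nonempty_interior interior_nonempty]
  exact subset_closure zero_mem

lemma isClosed_Mbar : IsClosed Mbar := by
  have c : ∀ i : Fin 3, Continuous (fun x : E => x i) := fun i => continuous_apply i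
  exact (isClosed_le (c 1) (c 0)).inter ((isClosed_le (c 2) (c 1)).inter
    ((isClosed_le (c 2).neg (c 1)).inter (isClosed_le ((c 0).add (c 1)) continuous_const)))

lemma isCompact_Mbar : IsCompact Mbar := by
  refine Metric.isCompact_of_isClosed_isBounded isClosed_Mbar ?_
  rw [isBounded_iff_forall_norm_le]
  refine ⟨2, fun x hx => ?_⟩
  obtain ⟨h1, h2, h3, h4⟩ := hx
  rw [pi_norm_le_iff_of_nonneg (by norm_num)]
  intro i
  rw [Real.norm_eq_abs, abs_le]
  fin_cases i
  · simp only [Fin.zero_eta]; constructor <;> linarith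
  · simp only [Fin.mk_one]; constructor <;> linarith
  · simp only [Fin.reduceFinMk]; constructor <;> linarith

/-- The three edges at the vertex `0`. -/
structure IsEdge (e : E) : Prop where
  e0 : e 0 = 1
  mem : ∀ r ∈ Icc (0 : ℝ) (1 / 2), r • e ∈ Mbar
  tang : ∀ {α : ℝ} {v : E → E}, IsVelocity α v → ∀ r ∈ Icc (0 : ℝ) (1 / 2), ∀ i,
    v (r • e) i = v (r • e) 0 * e i

/-- first edge direction -/
def e1 : E := ![1, 0, 0]
/-- second edge direction -/
def e2 : E := ![1, 1, 1]
/-- third edge direction -/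
def e3 : E := ![1, 1, -1]

lemma isEdge_e1 : IsEdge e1 := by
  have hm : ∀ r ∈ Icc (0 : ℝ) (1 / 2), r • e1 ∈ Mbar := by
    rintro r ⟨h0, h1⟩
    refine ⟨?_, ?_, ?_, ?_⟩ <;> simp [e1] <;> linarith
  refine ⟨by simp [e1], hm, ?_⟩
  intro α v hv r hr i
  have h2 := hv.2.2.2.2.1 _ (hm r hr) (by simp [e1])
  have h3 := hv.2.2.2.2.2.1 _ (hm r hr) (by simp [e1])
  have k0 : e1 0 = 1 := by simp [e1]
  have k1 : e1 1 = 0 := by simp [e1]
  have k2 : e1 2 = 0 := by simp [e1]
  fin_cases i
  · simp only [Fin.zero_eta, k0]; ring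
  · simp only [Fin.mk_one, k1]; linarith
  · simp only [Fin.reduceFinMk, k2]; linarith

lemma isEdge_e2 : IsEdge e2 := by
  have hm : ∀ r ∈ Icc (0 : ℝ) (1 / 2), r • e2 ∈ Mbar := by
    rintro r ⟨h0, h1⟩
    refine ⟨?_, ?_, ?_, ?_⟩ <;> simp [e2] <;> linarith
  refine ⟨by simp [e2], hm, ?_⟩
  intro α v hv r hr i
  have h1 := hv.2.2.2.1 _ (hm r hr) (by simp [e2])
  have h2 := hv.2.2.2.2.1 _ (hm r hr) (by simp [e2])
  have k0 : e2 0 = 1 := by simp [e2]
  have k1 : e2 1 = 1 := by simp [e2]
  have k2 : e2 2 = 1 := by simp [e2]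
  fin_cases i
  · simp only [Fin.zero_eta, k0]; ring
  · simp only [Fin.mk_one, k1]; linarith
  · simp only [Fin.reduceFinMk, k2]; linarith

lemma isEdge_e3 : IsEdge e3 := by
  have hm : ∀ r ∈ Icc (0 : ℝ) (1 / 2), r • e3 ∈ Mbar := by
    rintro r ⟨h0, h1⟩
    refine ⟨?_, ?_, ?_, ?_⟩ <;> simp [e3] <;> linarith
  refine ⟨by simp [e3], hm, ?_⟩
  intro α v hv r hr i
  have h1 := hv.2.2.2.1 _ (hm r hr) (by simp [e3])
  have h3 := hv.2.2.2.2.2.1 _ (hm r hr) (by simp [e3])
  have k0 : e3 0 = 1 := by simp [e3]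
  have k1 : e3 1 = 1 := by simp [e3]
  have k2 : e3 2 = -1 := by simp [e3]
  fin_cases i
  · simp only [Fin.zero_eta, k0]; ring
  · simp only [Fin.mk_one, k1]; linarith
  · simp only [Fin.reduceFinMk, k2]; linarith

/-! ### Derivatives along edges -/

/-- The derivative of `f` in the direction `e`. -/
noncomputable def dd (e : E) (f : E → ℝ) (x : E) : ℝ := ∑ j, e j * pd j f x

lemma fderivWithin_apply (f : E → ℝ) (x e : E) : fderivWithin ℝ f Mbar x e = dd e f x := by
  have he : e = ∑ j, e j • (Pi.single j (1 : ℝ) : E) := by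
    ext i
    simp [Finset.sum_apply, Pi.single_apply]
  conv_lhs => rw [he]
  rw [map_sum]
  simp only [map_smul, smul_eq_mul, dd, pd]

lemma half_mem_zero : (0 : ℝ) ∈ Icc (0 : ℝ) (1 / 2) := ⟨le_rfl, by norm_num⟩

lemma hasDeriv_edge {e : E} (he : IsEdge e) {f : E → ℝ} (hf : DifferentiableOn ℝ f Mbar) {r : ℝ}
    (hr : r ∈ Icc (0 : ℝ) (1 / 2)) :
    HasDerivWithinAt (fun ρ : ℝ => f (ρ • e)) (dd e f (r • e)) (Icc 0 (1 / 2)) r := by
  rw [← fderivWithin_apply]
  have h1 : HasFDerivWithinAt f (fderivWithin ℝ f Mbar (r • e)) Mbar (r • e) :=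
    (hf _ (he.mem r hr)).hasFDerivWithinAt
  have h2 : HasDerivWithinAt (fun ρ : ℝ => ρ • e) e (Icc 0 (1 / 2)) r := by
    simpa using (hasDerivWithinAt_id r (Icc (0 : ℝ) (1 / 2))).smul_const e
  exact h1.comp_hasDerivWithinAt r h2 (fun ρ hρ => he.mem ρ hρ)

lemma IsVelocity.diff {α : ℝ} {v : E → E} (hv : IsVelocity α v) (i : Fin 3) :
    DifferentiableOn ℝ (fun x => v x i) Mbar := (hv.1 i).differentiableOn (by norm_num)

lemma dd_edge {α : ℝ} {e : E} (he : IsEdge e) {v : E → E} (hv : IsVelocity α v) {r : ℝ}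
    (hr : r ∈ Icc (0 : ℝ) (1 / 2)) (i : Fin 3) :
    dd e (fun x => v x i) (r • e) = dd e (fun x => v x 0) (r • e) * e i := by
  have h := hasDeriv_edge he (hv.diff i) hr
  have h0 := (hasDeriv_edge he (hv.diff 0) hr).mul_const (e i)
  have h2 : HasDerivWithinAt (fun ρ : ℝ => v (ρ • e) i) (dd e (fun x => v x 0) (r • e) * e i)
      (Icc 0 (1 / 2)) r := h0.congr (fun ρ hρ => he.tang hv ρ hρ i) (he.tang hv r hr i)
  exact UniqueDiffWithinAt.eq_deriv _ (uniqueDiffOn_Icc (by norm_num) r hr) h h2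

/-- The rate `a` at which `v` stretches the edge `e` at the vertex. -/
noncomputable def rate (v : E → E) (e : E) : ℝ := dd e (fun x => v x 0) 0

lemma dd_zero_edge {α : ℝ} {e : E} (he : IsEdge e) {v : E → E} (hv : IsVelocity α v) (i : Fin 3) :
    dd e (fun x => v x i) 0 = rate v e * e i := by
  have := dd_edge he hv half_mem_zero i
  rwa [zero_smul] at this

lemma vertex_zero {α : ℝ} {v : E → E} (hv : IsVelocity α v) (i : Fin 3) : v 0 i = 0 := by
  have a1 := isEdge_e1.tang hv 0 half_mem_zero 1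
  have a2 := isEdge_e2.tang hv 0 half_mem_zero 1
  have a3 := isEdge_e2.tang hv 0 half_mem_zero i
  rw [zero_smul] at a1 a2 a3
  have k1 : e1 1 = 0 := by simp [e1]
  have k2 : e2 1 = 1 := by simp [e2]
  rw [k1] at a1
  rw [k2] at a2
  have h0 : v 0 0 = 0 := by linarith
  rw [a3, h0, zero_mul]

lemma rate_relations {α : ℝ} {v : E → E} (hv : IsVelocity α v) :
    pd 0 (fun x => v x 0) 0 = rate v e1 ∧ pd 0 (fun x => v x 1) 0 = 0 ∧
    pd 0 (fun x => v x 2) 0 = 0 ∧
    (∀ i, pd 0 (fun x => v x i) 0 + pd 1 (fun x => v x i) 0 + pd 2 (fun x => v x i) 0 =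
      rate v e2) ∧
    (pd 0 (fun x => v x 0) 0 + pd 1 (fun x => v x 0) 0 - pd 2 (fun x => v x 0) 0 = rate v e3) ∧
    (pd 0 (fun x => v x 1) 0 + pd 1 (fun x => v x 1) 0 - pd 2 (fun x => v x 1) 0 = rate v e3) ∧
    (pd 0 (fun x => v x 2) 0 + pd 1 (fun x => v x 2) 0 - pd 2 (fun x => v x 2) 0 =
      -rate v e3) := by
  have h1 := dd_zero_edge isEdge_e1 hv
  have h2 := dd_zero_edge isEdge_e2 hv
  have h3 := dd_zero_edge isEdge_e3 hv
  generalize rate v e1 = a at h1 ⊢
  generalize rate v e2 = b at h2 ⊢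
  generalize rate v e3 = c at h3 ⊢
  simp only [dd, Fin.sum_univ_three] at h1 h2 h3
  refine ⟨?_, ?_, ?_, ?_, ?_, ?_, ?_⟩
  · simpa [e1] using h1 0
  · simpa [e1] using h1 1
  · simpa [e1] using h1 2
  · intro i
    have := h2 i
    fin_cases i <;> simpa [e2] using this
  · have := h3 0
    simp [e3] at this
    linarith
  · have := h3 1
    simp [e3] at this
    linarith
  · have := h3 2
    simp [e3] at this
    linarith

/-- The three stretching rates sum to zero. -/
lemma rate_sum {α : ℝ} {v : E → E} (hv : IsVelocity α v) :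
    rate v e1 + rate v e2 + rate v e3 = 0 := by
  have hd := hv.2.2.1 0 zero_mem
  rw [Fin.sum_univ_three] at hd
  obtain ⟨r1, r2, r3, r4, r5, r6, r7⟩ := rate_relations hv
  have r41 := r4 1
  have r42 := r4 2
  linarith

lemma pd_eq_zero {α : ℝ} {v : E → E} (hv : IsVelocity α v) (h1 : rate v e1 = 0)
    (h2 : rate v e2 = 0) (h3 : rate v e3 = 0) (i j : Fin 3) : pd j (fun x => v x i) 0 = 0 := by
  obtain ⟨r1, r2, r3, r4, r5, r6, r7⟩ := rate_relations hv
  have r40 := r4 0
  have r41 := r4 1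
  have r42 := r4 2
  rw [h1] at r1
  rw [h2] at r40 r41 r42
  rw [h3] at r5 r6 r7
  fin_cases i <;> fin_cases j <;> simp only [Fin.zero_eta, Fin.mk_one, Fin.reduceFinMk] <;>
    linarith

/-! ### Linear algebra -/

lemma clm_sum (L : E →L[ℝ] ℝ) (x : E) : L x = ∑ j, x j * L (Pi.single j 1) := by
  have he : x = ∑ j, x j • (Pi.single j (1 : ℝ) : E) := by
    ext i
    simp [Finset.sum_apply, Pi.single_apply]
  conv_lhs => rw [he]
  rw [map_sum]
  simp only [map_smul, smul_eq_mul]

lemma clm_bound {L : E →L[ℝ] ℝ} {c : ℝ} (h : ∀ j, |L (Pi.single j 1)| ≤ c) :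
    ‖L‖ ≤ 3 * c := by
  have hc : 0 ≤ c := (abs_nonneg _).trans (h 0)
  refine L.opNorm_le_bound (by positivity) fun x => ?_
  rw [clm_sum L x]
  calc ‖∑ j, x j * L (Pi.single j 1)‖ ≤ ∑ j, ‖x j * L (Pi.single j 1)‖ := norm_sum_le _ _
    _ ≤ ∑ _j : Fin 3, ‖x‖ * c := by
        refine Finset.sum_le_sum fun j _ => ?_
        rw [norm_mul]
        exact mul_le_mul (norm_le_pi_norm x j) (h j) (norm_nonneg _) (norm_nonneg _)
    _ = 3 * c * ‖x‖ := by simp; ring

/-- Mean value inequality. -/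
lemma mean_value {f : E → ℝ} (hf : DifferentiableOn ℝ f Mbar) {x y : E} (hx : x ∈ Mbar)
    (hy : y ∈ Mbar) {c : Fin 3 → ℝ} {ε : ℝ}
    (h : ∀ z ∈ Mbar, ‖z‖ ≤ max ‖x‖ ‖y‖ → ∀ j, |pd j f z - c j| ≤ ε) :
    |f y - f x - ∑ j, c j * (y j - x j)| ≤ 3 * ε * ‖y - x‖ := by
  let φ : E →L[ℝ] ℝ := ∑ j, c j • ContinuousLinearMap.proj j
  have hφ : ∀ z, φ z = ∑ j, c j * z j := by
    intro z
    simp [φ]
  have hS : Convex ℝ (Mbar ∩ Metric.closedBall 0 (max ‖x‖ ‖y‖)) :=
    convex_Mbar.inter (convex_closedBall _ _)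
  have hb := hS.norm_image_sub_le_of_norm_hasFDerivWithin_le' (f := f) (φ := φ) (C := 3 * ε)
    (f' := fun z => fderivWithin ℝ f Mbar z)
    (fun z hz => (hf z hz.1).hasFDerivWithinAt.mono inter_subset_left)
    (fun z hz => by
      refine clm_bound fun j => ?_
      have h1 := h z hz.1 (by simpa using hz.2) j
      have h2 : (fderivWithin ℝ f Mbar z - φ) (Pi.single j 1) = pd j f z - c j := by
        rw [_root_.sub_apply, hφ]
        simp [pd, Pi.single_apply]
      rw [h2]
      exact h1)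
    (x := x) (y := y) ⟨hx, by simp⟩ ⟨hy, by simp⟩
  rw [hφ, Real.norm_eq_abs] at hb
  simpa using hb

/-! ### Time-integrated Euler equation -/

section solution

variable {α t : ℝ} {u : ℝ → E → E} {p : ℝ → E → ℝ} {e : E}

lemma Icc_sub {a b : ℝ} (ha : 0 < a) (hb : b < t) : Icc a b ⊆ Ioo 0 t :=
  fun _ hs => ⟨ha.trans_le hs.1, hs.2.trans_lt hb⟩

lemma path_cont {f : ℝ × E → ℝ} {S : Set ℝ} (hf : ContinuousOn f (S ×ˢ Mbar)) {x : E}
    (hx : x ∈ Mbar) : ContinuousOn (fun s => f (s, x)) S :=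
  hf.comp (by fun_prop) (fun _ hs => ⟨hs, hx⟩)

/-- uniform continuity -/
lemma unif {f : ℝ × E → ℝ} {a b : ℝ} (hf : ContinuousOn f (Icc a b ×ˢ Mbar)) {ε : ℝ}
    (hε : 0 < ε) : ∃ δ > 0, ∀ s ∈ Icc a b, ∀ s' ∈ Icc a b, ∀ x ∈ Mbar, ∀ y ∈ Mbar,
      |s - s'| < δ → ‖x - y‖ < δ → |f (s, x) - f (s', y)| < ε := by
  have hc : IsCompact (Icc a b ×ˢ Mbar) := isCompact_Icc.prod isCompact_Mbar
  have hu := hc.uniformContinuousOn_of_continuous hf
  rw [Metric.uniformContinuousOn_iff] at hu
  obtain ⟨δ, hδ, h⟩ := hu ε hε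
  refine ⟨δ, hδ, fun s hs s' hs' x hx y hy h1 h2 => ?_⟩
  have := h (s, x) ⟨hs, hx⟩ (s', y) ⟨hs', hy⟩ (by
    rw [Prod.dist_eq, dist_eq_norm, dist_eq_norm]
    exact max_lt h1 h2)
  rwa [Real.dist_eq] at this

/-- Continuity in time of the velocity. -/
lemma velocity_cont (hv : ∀ s ∈ Icc 0 t, IsVelocity α (u s))
    (hcont : ∀ i j,
      ContinuousOn (fun z : ℝ × E => pd j (fun x => u z.1 x i) z.2) (Icc 0 t ×ˢ Mbar))
    {x : E} (hxM : x ∈ Mbar) (j : Fin 3) : ContinuousOn (fun s => u s x j) (Icc 0 t) := by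
  intro s hs
  rw [ContinuousWithinAt, Metric.tendsto_nhds]
  intro ε' hε'
  obtain ⟨η', hη'⟩ : ∃ η', η' = ε' / (3 * ‖x‖ + 1) := ⟨_, rfl⟩
  have hη'0 : 0 < η' := by rw [hη']; positivity
  choose δ' hδ'0 hδ' using fun k => unif (hcont j k) hη'0
  have hev2 : ∀ᶠ s' in 𝓝[Icc 0 t] s, ∀ k, |s' - s| < δ' k := by
    rw [eventually_all]
    intro k
    have : ∀ᶠ s' in 𝓝 s, |s' - s| < δ' k := by
      filter_upwards [Metric.ball_mem_nhds s (hδ'0 k)] with s' hs'
      simpa [Real.dist_eq] using hs'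
    exact this.filter_mono nhdsWithin_le_nhds
  filter_upwards [hev2, self_mem_nhdsWithin] with s' hs' hs'2
  have hvs := hv s hs
  have hvs' := hv s' hs'2
  have m := mean_value (f := fun y => u s' y j - u s y j)
    ((hvs'.diff j).sub (hvs.diff j)) zero_mem hxM (c := fun _ => 0) (ε := η')
    (fun z hz _ k => by
      have : pd k (fun y => u s' y j - u s y j) z =
          pd k (fun y => u s' y j) z - pd k (fun y => u s y j) z := by
        unfold pd
        rw [fderivWithin_fun_sub (uniqueDiffOn_Mbar z hz) (hvs'.diff j z hz) (hvs.diff j z hz)]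
        rfl
      rw [this, sub_zero]
      exact (hδ' k s' hs'2 s hs z hz z hz (hs' k) (by simpa using hδ'0 k)).le)
  simp only [vertex_zero hvs j, vertex_zero hvs' j, sub_zero, zero_mul,
    Finset.sum_const_zero] at m
  rw [Real.dist_eq]
  calc _ ≤ 3 * η' * ‖x‖ := m
    _ < ε' := by
        rw [hη']
        rw [mul_div_assoc', div_mul_eq_mul_div, div_lt_iff₀ (by positivity)]
        nlinarith [norm_nonneg x]

/-- The derivative at the vertex of the time integral of a nonlinear term. -/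
lemma nonlinear_deriv (hv : ∀ s ∈ Icc 0 t, IsVelocity α (u s))
    (hcont : ∀ i j,
      ContinuousOn (fun z : ℝ × E => pd j (fun x => u z.1 x i) z.2) (Icc 0 t ×ˢ Mbar))
    {a b : ℝ} (ha : 0 < a) (hab : a ≤ b) (hb : b < t) (i j : Fin 3) :
    HasFDerivWithinAt
      (fun x => ∫ s in a..b, u s x j * pd j (fun y => u s y i) x)
      (∑ k, (∫ s in a..b, pd k (fun y => u s y j) 0 * pd j (fun y => u s y i) 0) •
        (ContinuousLinearMap.proj k : E →L[ℝ] ℝ)) Mbar 0 := by
  have hsub : Icc a b ⊆ Icc 0 t := (Icc_sub ha hb).trans Ioo_subset_Icc_self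
  have hc : ∀ i j, ContinuousOn (fun z : ℝ × E => pd j (fun x => u z.1 x i) z.2)
      (Icc a b ×ˢ Mbar) := fun i j => (hcont i j).mono (prod_mono hsub le_rfl)
  have hcomp : IsCompact (Icc a b ×ˢ Mbar) := isCompact_Icc.prod isCompact_Mbar
  -- a bound for the derivatives
  obtain ⟨K, hK0, hK⟩ : ∃ K : ℝ, 0 < K ∧ ∀ s ∈ Icc a b, ∀ x ∈ Mbar, ∀ i j,
      |pd j (fun y => u s y i) x| ≤ K := by
    choose C hC using fun i j => hcomp.exists_bound_of_continuousOn (hc i j)
    have hC0 : ∀ i j, 0 ≤ C i j := fun i j =>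
      (norm_nonneg _).trans (hC i j (a, 0) ⟨⟨le_rfl, hab⟩, zero_mem⟩)
    refine ⟨(∑ i, ∑ j, C i j) + 1, ?_, fun s hs x hx i j => ?_⟩
    · have := Finset.sum_nonneg (fun i (_ : i ∈ Finset.univ) =>
        Finset.sum_nonneg (fun j (_ : j ∈ Finset.univ) => hC0 i j))
      linarith
    · have h0 := hC i j (s, x) ⟨hs, hx⟩
      have h1 := Finset.single_le_sum (fun k _ => hC0 i k) (Finset.mem_univ j)
      have h2 := Finset.single_le_sum (f := fun i => ∑ j, C i j)
            (fun k _ => Finset.sum_nonneg fun l _ => hC0 k l) (Finset.mem_univ i)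
      rw [Real.norm_eq_abs] at h0
      linarith
  rw [hasFDerivWithinAt_iff_isLittleO, Asymptotics.isLittleO_iff]
  intro ε hε
  obtain ⟨η, hη⟩ : ∃ η, η = ε / (6 * K * (b - a) + 1) := ⟨_, rfl⟩
  have hba : 0 ≤ b - a := sub_nonneg.mpr hab
  have hη0 : 0 < η := by rw [hη]; positivity
  choose δ hδ0 hδ using fun i j => unif (hc i j) hη0
  have hev : ∀ i j, ∀ᶠ x in 𝓝[Mbar] (0 : E), ‖x‖ < δ i j := by
    intro i j
    have : ∀ᶠ x in 𝓝 (0 : E), ‖x‖ < δ i j := by
      filter_upwards [Metric.ball_mem_nhds (0 : E) (hδ0 i j)] with x hx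
      simpa using hx
    exact this.filter_mono nhdsWithin_le_nhds
  have hev' : ∀ᶠ x in 𝓝[Mbar] (0 : E), ∀ i j, ‖x‖ < δ i j := by
    rw [eventually_all]
    intro i
    rw [eventually_all]
    exact hev i
  filter_upwards [hev', self_mem_nhdsWithin] with x hx hxM
  have hclose : ∀ s ∈ Icc a b, ∀ z ∈ Mbar, ‖z‖ ≤ max ‖(0 : E)‖ ‖x‖ → ∀ i j,
      |pd j (fun y => u s y i) z - pd j (fun y => u s y i) 0| ≤ η := by
    intro s hs z hz hzx i j
    rw [norm_zero, max_eq_right (norm_nonneg _)] at hzx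
    exact (hδ i j s hs s hs z hz 0 zero_mem (by simpa using hδ0 i j)
      (by simpa using hzx.trans_lt (hx i j))).le
  -- the pointwise estimate
  have hpt : ∀ s ∈ Icc a b, |u s x j * pd j (fun y => u s y i) x -
      ∑ k, x k * (pd k (fun y => u s y j) 0 * pd j (fun y => u s y i) 0)| ≤
      6 * K * η * ‖x‖ := by
    intro s hs
    have hvs := hv s (hsub hs)
    have m1 := mean_value (hvs.diff j) zero_mem hxM
      (c := fun k => pd k (fun y => u s y j) 0) (ε := η)
      (fun z hz hzx k => hclose s hs z hz hzx j k)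
    have m2 := mean_value (hvs.diff j) zero_mem hxM (c := fun _ => 0) (ε := K)
      (fun z hz _ k => by simpa using hK s hs z hz j k)
    simp only [vertex_zero hvs j, sub_zero, zero_mul, Finset.sum_const_zero, Pi.zero_apply]
      at m1 m2
    have m3 := hclose s hs x hxM (le_max_right _ _) i j
    have m4 := hK s hs 0 zero_mem i j
    have hid : u s x j * pd j (fun y => u s y i) x -
        ∑ k, x k * (pd k (fun y => u s y j) 0 * pd j (fun y => u s y i) 0) =
        u s x j * (pd j (fun y => u s y i) x - pd j (fun y => u s y i) 0) +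
        (u s x j - ∑ k, pd k (fun y => u s y j) 0 * x k) * pd j (fun y => u s y i) 0 := by
      rw [sub_mul, Finset.sum_mul]
      have : ∀ k, x k * (pd k (fun y => u s y j) 0 * pd j (fun y => u s y i) 0) =
          pd k (fun y => u s y j) 0 * x k * pd j (fun y => u s y i) 0 := fun k => by ring
      simp only [this]
      ring
    rw [hid]
    calc _ ≤ |u s x j * (pd j (fun y => u s y i) x - pd j (fun y => u s y i) 0)| +
        |(u s x j - ∑ k, pd k (fun y => u s y j) 0 * x k) * pd j (fun y => u s y i) 0| :=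
          abs_add_le _ _
      _ = |u s x j| * |pd j (fun y => u s y i) x - pd j (fun y => u s y i) 0| +
        |u s x j - ∑ k, pd k (fun y => u s y j) 0 * x k| * |pd j (fun y => u s y i) 0| := by
          rw [abs_mul, abs_mul]
      _ ≤ (3 * K * ‖x‖) * η + (3 * η * ‖x‖) * K := by
          gcongr
      _ = 6 * K * η * ‖x‖ := by ring
  -- integrability
  have hu : ∀ j, ContinuousOn (fun s => u s x j) (Icc a b) := fun j =>
    (velocity_cont hv hcont hxM j).mono hsub
  have hint1 : IntervalIntegrable (fun s => u s x j * pd j (fun y => u s y i) x)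
      MeasureTheory.volume a b := by
    refine ContinuousOn.intervalIntegrable ?_
    rw [uIcc_of_le hab]
    exact (hu j).mul (path_cont (hc i j) hxM)
  have hint2 : ∀ k, IntervalIntegrable
      (fun s => pd k (fun y => u s y j) 0 * pd j (fun y => u s y i) 0)
      MeasureTheory.volume a b := by
    intro k
    refine ContinuousOn.intervalIntegrable ?_
    rw [uIcc_of_le hab]
    exact (path_cont (hc j k) zero_mem).mul (path_cont (hc i j) zero_mem)
  have hW0 : ∫ s in a..b, u s 0 j * pd j (fun y => u s y i) 0 = 0 := by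
    rw [intervalIntegral.integral_congr (g := fun _ => 0), intervalIntegral.integral_zero]
    intro s hs
    rw [uIcc_of_le hab] at hs
    simp only
    rw [vertex_zero (hv s (hsub hs)) j, zero_mul]
  have hlin : (∑ k, (∫ s in a..b, pd k (fun y => u s y j) 0 * pd j (fun y => u s y i) 0) •
        (ContinuousLinearMap.proj k : E →L[ℝ] ℝ)) (x - 0) =
      ∫ s in a..b, ∑ k, x k * (pd k (fun y => u s y j) 0 * pd j (fun y => u s y i) 0) := by
    rw [intervalIntegral.integral_finsetSum (fun k _ => (hint2 k).const_mul (x k))]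
    simp only [intervalIntegral.integral_const_mul]
    rw [sub_zero, _root_.sum_apply]
    refine Finset.sum_congr rfl fun k _ => ?_
    simp [mul_comm]
  have hint3 : IntervalIntegrable
      (fun s => ∑ k, x k * (pd k (fun y => u s y j) 0 * pd j (fun y => u s y i) 0))
      MeasureTheory.volume a b := by
    refine ContinuousOn.intervalIntegrable ?_
    rw [uIcc_of_le hab]
    exact continuousOn_finsetSum _ fun k _ => continuousOn_const.mul
      ((path_cont (hc j k) zero_mem).mul (path_cont (hc i j) zero_mem))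
  rw [hW0, hlin, sub_zero, ← intervalIntegral.integral_sub hint1 hint3]
  have hn := intervalIntegral.norm_integral_le_of_norm_le_const (a := a) (b := b)
    (f := fun s => u s x j * pd j (fun y => u s y i) x -
      ∑ k, x k * (pd k (fun y => u s y j) 0 * pd j (fun y => u s y i) 0))
    (C := 6 * K * η * ‖x‖) (fun s hs => by
      rw [uIoc_of_le hab] at hs
      exact hpt s ⟨hs.1.le, hs.2⟩)
  refine hn.trans ?_
  rw [abs_of_nonneg hba, sub_zero, hη]
  have h1 : 6 * K * (ε / (6 * K * (b - a) + 1)) * ‖x‖ * (b - a) =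
      ε * ‖x‖ * ((6 * K * (b - a)) / (6 * K * (b - a) + 1)) := by ring
  rw [h1]
  have h2 : (6 * K * (b - a)) / (6 * K * (b - a) + 1) ≤ 1 := by
    rw [div_le_one (by positivity)]; linarith
  have h3 : 0 ≤ ε * ‖x‖ := by positivity
  nlinarith

/-- The time-integrated Euler equation. -/
lemma integrated_euler (hv : ∀ s ∈ Icc 0 t, IsVelocity α (u s))
    (hcont : ∀ i j,
      ContinuousOn (fun z : ℝ × E => pd j (fun x => u z.1 x i) z.2) (Icc 0 t ×ˢ Mbar))
    (hpc : ∀ i, ContinuousOn (fun z : ℝ × E => pd i (p z.1) z.2) (Ioo 0 t ×ˢ Mbar))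
    (heu : ∀ s ∈ Ioo 0 t, ∀ x ∈ Mbar, ∀ i, HasDerivAt (fun τ => u τ x i)
      (-(∑ j, u s x j * pd j (fun y => u s y i) x) - pd i (p s) x) s)
    {a b : ℝ} (ha : 0 < a) (hab : a ≤ b) (hb : b < t) {x : E} (hx : x ∈ Mbar) (i : Fin 3) :
    ∫ s in a..b, pd i (p s) x = -(u b x i - u a x i) -
      ∑ j, ∫ s in a..b, u s x j * pd j (fun y => u s y i) x := by
  have hsub : Icc a b ⊆ Ioo 0 t := Icc_sub ha hb
  have hsub' : Icc a b ⊆ Icc 0 t := hsub.trans Ioo_subset_Icc_self
  have c1 : ∀ j, ContinuousOn (fun s => u s x j * pd j (fun y => u s y i) x) (Icc a b) :=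
    fun j => ((velocity_cont hv hcont hx j).mono hsub').mul
      ((path_cont (hcont i j) hx).mono hsub')
  have c2 : ContinuousOn (fun s => pd i (p s) x) (Icc a b) := (path_cont (hpc i) hx).mono hsub
  have i1 : ∀ j, IntervalIntegrable (fun s => u s x j * pd j (fun y => u s y i) x)
      MeasureTheory.volume a b := fun j => by
    refine ContinuousOn.intervalIntegrable ?_
    rw [uIcc_of_le hab]; exact c1 j
  have i2 : IntervalIntegrable (fun s => pd i (p s) x) MeasureTheory.volume a b := by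
    refine ContinuousOn.intervalIntegrable ?_
    rw [uIcc_of_le hab]; exact c2
  have i3 : IntervalIntegrable (fun s => ∑ j, u s x j * pd j (fun y => u s y i) x)
      MeasureTheory.volume a b := by
    refine ContinuousOn.intervalIntegrable ?_
    rw [uIcc_of_le hab]; exact continuousOn_finsetSum _ fun j _ => c1 j
  have h := intervalIntegral.integral_eq_sub_of_hasDerivAt (a := a) (b := b)
    (f := fun τ => u τ x i)
    (f' := fun s => -(∑ j, u s x j * pd j (fun y => u s y i) x) - pd i (p s) x)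
    (fun s hs => by
      rw [uIcc_of_le hab] at hs
      exact heu s (hsub hs) x hx i)
    (i3.neg.sub i2)
  have i3' : IntervalIntegrable (fun s => -∑ j, u s x j * pd j (fun y => u s y i) x)
      MeasureTheory.volume a b := i3.neg
  rw [intervalIntegral.integral_sub i3' i2, intervalIntegral.integral_neg,
    intervalIntegral.integral_finsetSum (fun j _ => i1 j)] at h
  linarith

lemma clm_repr (L : E →L[ℝ] ℝ) :
    L = ∑ j, L (Pi.single j 1) • (ContinuousLinearMap.proj j : E →L[ℝ] ℝ) := by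
  ext1 x
  rw [clm_sum L x, _root_.sum_apply]
  refine Finset.sum_congr rfl fun k _ => ?_
  simp [mul_comm]

/-- The gradient of the time-integrated pressure. -/
lemma potential (hpd : ∀ s ∈ Ioo 0 t, DifferentiableOn ℝ (p s) Mbar)
    (hpc : ∀ i, ContinuousOn (fun z : ℝ × E => pd i (p z.1) z.2) (Ioo 0 t ×ˢ Mbar))
    {a b : ℝ} (ha : 0 < a) (hab : a ≤ b) (hb : b < t) :
    ∃ P : E → ℝ, ∀ x ∈ interior Mbar, HasFDerivAt P
      (∑ i, (∫ s in a..b, pd i (p s) x) • (ContinuousLinearMap.proj i : E →L[ℝ] ℝ)) x := by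
  have hsub : Icc a b ⊆ Ioo 0 t := Icc_sub ha hb
  have hc : ∀ i, ContinuousOn (fun z : ℝ × E => pd i (p z.1) z.2) (Icc a b ×ˢ Mbar) :=
    fun i => (hpc i).mono (prod_mono hsub le_rfl)
  have hcomp : IsCompact (Icc a b ×ˢ Mbar) := isCompact_Icc.prod isCompact_Mbar
  have hIoc : Ι a b ⊆ Icc a b := by rw [uIoc_of_le hab]; exact Ioc_subset_Icc_self
  choose C hC using fun i => hcomp.exists_bound_of_continuousOn (hc i)
  have hC0 : ∀ i, 0 ≤ C i := fun i =>
    (norm_nonneg _).trans (hC i (a, 0) ⟨⟨le_rfl, hab⟩, zero_mem⟩)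
  have hCs : ∀ s ∈ Icc a b, ∀ x ∈ Mbar, ∀ i, |pd i (p s) x| ≤ ∑ i, C i := fun s hs x hx i =>
    (hC i (s, x) ⟨hs, hx⟩).trans (Finset.single_le_sum (fun k _ => hC0 k) (Finset.mem_univ i))
  -- continuity in time of the pressure differences
  have hpt : ∀ x ∈ Mbar, ContinuousOn (fun s => p s x - p s 0) (Icc a b) := by
    intro x hx s hs
    rw [ContinuousWithinAt, Metric.tendsto_nhds]
    intro ε' hε'
    obtain ⟨η', hη'⟩ : ∃ η', η' = ε' / (3 * ‖x‖ + 1) := ⟨_, rfl⟩
    have hη'0 : 0 < η' := by rw [hη']; positivity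
    choose δ' hδ'0 hδ' using fun k => unif (hc k) hη'0
    have hev2 : ∀ᶠ s' in 𝓝[Icc a b] s, ∀ k, |s' - s| < δ' k := by
      rw [eventually_all]
      intro k
      have : ∀ᶠ s' in 𝓝 s, |s' - s| < δ' k := by
        filter_upwards [Metric.ball_mem_nhds s (hδ'0 k)] with s' hs'
        simpa [Real.dist_eq] using hs'
      exact this.filter_mono nhdsWithin_le_nhds
    filter_upwards [hev2, self_mem_nhdsWithin] with s' hs' hs'2
    have hd := hpd s (hsub hs)
    have hd' := hpd s' (hsub hs'2)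
    have m := mean_value (f := fun y => p s' y - p s y)
      (hd'.sub hd) zero_mem hx (c := fun _ => 0) (ε := η')
      (fun z hz _ k => by
        have : pd k (fun y => p s' y - p s y) z = pd k (p s') z - pd k (p s) z := by
          unfold pd
          rw [fderivWithin_fun_sub (uniqueDiffOn_Mbar z hz) (hd' z hz) (hd z hz)]
          rfl
        rw [this, sub_zero]
        exact (hδ' k s' hs'2 s hs z hz z hz (hs' k) (by simpa using hδ'0 k)).le)
    simp only [sub_zero, zero_mul, Finset.sum_const_zero] at m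
    rw [Real.dist_eq]
    have hid : p s' x - p s' 0 - (p s x - p s 0) = p s' x - p s x - (p s' 0 - p s 0) := by ring
    rw [hid]
    calc _ ≤ 3 * η' * ‖x‖ := m
      _ < ε' := by
          rw [hη']
          rw [mul_div_assoc', div_mul_eq_mul_div, div_lt_iff₀ (by positivity)]
          nlinarith [norm_nonneg x]
  refine ⟨fun x => ∫ s in a..b, (p s x - p s 0), fun x₀ hx₀ => ?_⟩
  have hx₀' : x₀ ∈ Mbar := interior_subset hx₀
  have hrep : ∀ s x, fderivWithin ℝ (p s) Mbar x =
      ∑ i, pd i (p s) x • (ContinuousLinearMap.proj i : E →L[ℝ] ℝ) := fun s x => clm_repr _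
  have hgc : ContinuousOn (fun s => fderivWithin ℝ (p s) Mbar x₀) (Icc a b) := by
    simp only [hrep]
    exact continuousOn_finsetSum _ fun i _ =>
      (path_cont (hc i) hx₀').smul continuousOn_const
  have key := intervalIntegral.hasFDerivAt_integral_of_dominated_of_fderiv_le
    (μ := MeasureTheory.volume) (a := a) (b := b)
    (F := fun x s => p s x - p s 0) (F' := fun x s => fderivWithin ℝ (p s) Mbar x) (x₀ := x₀)
    (s := interior Mbar) (bound := fun _ => 3 * ∑ i, C i)
    (isOpen_interior.mem_nhds hx₀)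
    (by
      filter_upwards [isOpen_interior.mem_nhds hx₀] with x hx
      refine ContinuousOn.aestronglyMeasurable ?_ measurableSet_uIoc
      exact (hpt x (interior_subset hx)).mono hIoc)
    (by
      refine ContinuousOn.intervalIntegrable ?_
      rw [uIcc_of_le hab]
      exact hpt x₀ hx₀')
    (ContinuousOn.aestronglyMeasurable (hgc.mono hIoc) measurableSet_uIoc)
    (Filter.Eventually.of_forall fun s hs x hx =>
      clm_bound fun j => hCs s (hIoc hs) x (interior_subset hx) j)
    intervalIntegrable_const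
    (Filter.Eventually.of_forall fun s hs x hx => by
      have h1 := (hpd s (hsub (hIoc hs)) x (interior_subset hx)).hasFDerivWithinAt
      exact (h1.hasFDerivAt (mem_interior_iff_mem_nhds.mp hx)).sub_const _)
  have hG : ∫ s in a..b, fderivWithin ℝ (p s) Mbar x₀ =
      ∑ i, (∫ s in a..b, pd i (p s) x₀) • (ContinuousLinearMap.proj i : E →L[ℝ] ℝ) := by
    simp only [hrep]
    rw [intervalIntegral.integral_finsetSum]
    · refine Finset.sum_congr rfl fun i _ => ?_
      rw [intervalIntegral.integral_smul_const]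
    · intro i _
      refine ContinuousOn.intervalIntegrable ?_
      rw [uIcc_of_le hab]
      exact (path_cont (hc i) hx₀').smul continuousOn_const
  rw [← hG]
  exact key

/-- The time-integrated equation of the rate of an edge. -/
noncomputable def lam (u : ℝ → E → E) (a b : ℝ) (e : E) : ℝ :=
  rate (u b) e - rate (u a) e + ∫ s in a..b, rate (u s) e ^ 2

lemma rate_cont (hcont : ∀ i j,
      ContinuousOn (fun z : ℝ × E => pd j (fun x => u z.1 x i) z.2) (Icc 0 t ×ˢ Mbar)) (e : E) :
    ContinuousOn (fun τ => rate (u τ) e) (Icc 0 t) := by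
  unfold rate dd
  exact continuousOn_finsetSum _ fun j _ =>
    continuousOn_const.mul (path_cont (hcont 0 j) zero_mem)

lemma lam_eq {e' : E} (he : IsEdge e) (he' : IsEdge e') (hne : ∑ i, e i * e' i ≠ 0)
    (hu : IsEulerSolution α t u) {a b : ℝ} (ha : 0 < a) (hab : a ≤ b) (hb : b < t) :
    lam u a b e = lam u a b e' := by
  obtain ⟨hv, hcont, p, hpd, hpc, heu⟩ := hu
  have hsub : Icc a b ⊆ Icc 0 t := (Icc_sub ha hb).trans Ioo_subset_Icc_self
  obtain ⟨P, hP⟩ := potential hpd hpc ha hab hb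
  have hva := hv a (hsub ⟨le_rfl, hab⟩)
  have hvb := hv b (hsub ⟨hab, le_rfl⟩)
  -- the gradient of the integrated pressure, in terms of the velocity
  let g : Fin 3 → E → ℝ := fun i x => -(u b x i - u a x i) -
      ∑ j, ∫ s in a..b, u s x j * pd j (fun y => u s y i) x
  let Ng : Fin 3 → (E →L[ℝ] ℝ) := fun i =>
    -(fderivWithin ℝ (fun x => u b x i) Mbar 0 - fderivWithin ℝ (fun x => u a x i) Mbar 0) -
      ∑ j, ∑ k, (∫ s in a..b, pd k (fun y => u s y j) 0 * pd j (fun y => u s y i) 0) •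
        (ContinuousLinearMap.proj k : E →L[ℝ] ℝ)
  have hg : ∀ i, HasFDerivWithinAt (g i) (Ng i) Mbar 0 := by
    intro i
    refine HasFDerivWithinAt.fun_sub ?_ ?_
    · exact ((hvb.diff i 0 zero_mem).hasFDerivWithinAt.fun_sub
        (hva.diff i 0 zero_mem).hasFDerivWithinAt).fun_neg
    · exact HasFDerivWithinAt.fun_sum fun j _ => nonlinear_deriv hv hcont ha hab hb i j
  let G : E → (E →L[ℝ] ℝ) := fun x => ∑ i, g i x • (ContinuousLinearMap.proj i : E →L[ℝ] ℝ)
  let N : E →L[ℝ] (E →L[ℝ] ℝ) :=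
    ∑ i, (Ng i).smulRight (ContinuousLinearMap.proj i : E →L[ℝ] ℝ)
  have hG : HasFDerivWithinAt G N (interior Mbar) 0 := by
    have : HasFDerivWithinAt G N Mbar 0 :=
      HasFDerivWithinAt.fun_sum fun i _ =>
        (hg i).smul_const (ContinuousLinearMap.proj i : E →L[ℝ] ℝ)
    exact this.mono interior_subset
  have hPG : ∀ x ∈ interior Mbar, HasFDerivAt P (G x) x := by
    intro x hx
    have h1 := hP x hx
    have h2 : (∑ i, (∫ s in a..b, pd i (p s) x) • (ContinuousLinearMap.proj i : E →L[ℝ] ℝ)) =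
        G x := by
      refine Finset.sum_congr rfl fun i _ => ?_
      rw [integrated_euler hv hcont hpc heu ha hab hb (interior_subset hx) i]
    rwa [h2] at h1
  have hsym := convex_Mbar.second_derivative_within_at_symmetric interior_nonempty hPG zero_mem hG
    e e'
  have hNapp : ∀ v w : E, N v w = ∑ i, Ng i v * w i := by
    intro v w
    simp [N, _root_.sum_apply]
  -- the action on an edge
  have hedge : ∀ {e : E}, IsEdge e → ∀ i, Ng i e = -(lam u a b e) * e i := by
    intro e he i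
    have h1 : Ng i e = -(dd e (fun x => u b x i) 0 - dd e (fun x => u a x i) 0) -
        ∑ j, ∑ k, (∫ s in a..b, pd k (fun y => u s y j) 0 * pd j (fun y => u s y i) 0) * e k := by
      simp only [Ng, ← fderivWithin_apply]
      simp [_root_.sum_apply]
    have hint : ∀ j k, IntervalIntegrable
        (fun s => pd k (fun y => u s y j) 0 * pd j (fun y => u s y i) 0 * e k)
        MeasureTheory.volume a b := by
      intro j k
      refine ContinuousOn.intervalIntegrable ?_
      rw [uIcc_of_le hab]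
      exact (((path_cont (hcont j k) zero_mem).mul
        (path_cont (hcont i j) zero_mem)).mul continuousOn_const).mono hsub
    have h2 : ∑ j, ∑ k,
        (∫ s in a..b, pd k (fun y => u s y j) 0 * pd j (fun y => u s y i) 0) * e k =
        ∫ s in a..b, ∑ j, ∑ k, pd k (fun y => u s y j) 0 * pd j (fun y => u s y i) 0 * e k := by
      rw [intervalIntegral.integral_finsetSum]
      · refine Finset.sum_congr rfl fun j _ => ?_
        rw [intervalIntegral.integral_finsetSum (fun k _ => hint j k)]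
        refine Finset.sum_congr rfl fun k _ => ?_
        rw [intervalIntegral.integral_mul_const]
      · intro j _
        refine ContinuousOn.intervalIntegrable ?_
        rw [uIcc_of_le hab]
        exact continuousOn_finsetSum _ fun k _ => (((path_cont (hcont j k) zero_mem).mul
          (path_cont (hcont i j) zero_mem)).mul continuousOn_const).mono hsub
    have h3 : ∫ s in a..b, ∑ j, ∑ k,
        pd k (fun y => u s y j) 0 * pd j (fun y => u s y i) 0 * e k =
        ∫ s in a..b, rate (u s) e ^ 2 * e i := by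
      refine intervalIntegral.integral_congr fun s hs => ?_
      rw [uIcc_of_le hab] at hs
      have hvs := hv s (hsub hs)
      calc ∑ j, ∑ k, pd k (fun y => u s y j) 0 * pd j (fun y => u s y i) 0 * e k
          = ∑ j, dd e (fun y => u s y j) 0 * pd j (fun y => u s y i) 0 := by
            refine Finset.sum_congr rfl fun j _ => ?_
            rw [dd, Finset.sum_mul]
            exact Finset.sum_congr rfl fun k _ => by ring
        _ = ∑ j, rate (u s) e * (e j * pd j (fun y => u s y i) 0) := by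
            refine Finset.sum_congr rfl fun j _ => ?_
            rw [dd_zero_edge he hvs j]; ring
        _ = rate (u s) e * dd e (fun y => u s y i) 0 := by rw [← Finset.mul_sum]; rfl
        _ = rate (u s) e ^ 2 * e i := by rw [dd_zero_edge he hvs i]; ring
    rw [h1, h2, h3, intervalIntegral.integral_mul_const, dd_zero_edge he hva i,
      dd_zero_edge he hvb i, lam]
    ring
  rw [hNapp, hNapp] at hsym
  simp only [hedge he, hedge he'] at hsym
  have h4 : ∑ i, -(lam u a b e) * e i * e' i = -(lam u a b e) * ∑ i, e i * e' i := by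
    rw [Finset.mul_sum]
    exact Finset.sum_congr rfl fun i _ => by ring
  have h5 : ∑ i, -(lam u a b e') * e' i * e i = -(lam u a b e') * ∑ i, e i * e' i := by
    rw [Finset.mul_sum]
    exact Finset.sum_congr rfl fun i _ => by ring
  rw [h4, h5] at hsym
  have h6 := mul_right_cancel₀ hne hsym
  linarith

/-- The ordinary differential equation satisfied by the stretching rates. -/
lemma rate_hasDerivAt (hu : IsEulerSolution α t u) {s : ℝ} (hs : s ∈ Ioo 0 t)
    (he : e = e1 ∨ e = e2 ∨ e = e3) :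
    HasDerivAt (fun τ => rate (u τ) e)
      ((rate (u s) e1 ^ 2 + rate (u s) e2 ^ 2 + rate (u s) e3 ^ 2) / 3 - rate (u s) e ^ 2) s := by
  have hcont := hu.2.1
  have hc : ∀ e, ContinuousOn (fun τ => rate (u τ) e) (Icc 0 t) := rate_cont hcont
  let F : ℝ → ℝ := fun τ =>
    (rate (u τ) e1 ^ 2 + rate (u τ) e2 ^ 2 + rate (u τ) e3 ^ 2) / 3 - rate (u τ) e ^ 2
  have hF : ContinuousOn F (Icc 0 t) :=
    ((((hc e1).pow 2).add ((hc e2).pow 2)).add ((hc e3).pow 2)).div_const 3 |>.sub ((hc e).pow 2)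
  have key : ∀ a b, 0 < a → a ≤ b → b < t →
      rate (u b) e = rate (u a) e + ∫ τ in a..b, F τ := by
    intro a b ha hab hb
    have hsub : Icc a b ⊆ Icc 0 t := (Icc_sub ha hb).trans Ioo_subset_Icc_self
    have hint : ∀ e, IntervalIntegrable (fun τ => rate (u τ) e ^ 2)
        MeasureTheory.volume a b := fun e => by
      refine ContinuousOn.intervalIntegrable ?_
      rw [uIcc_of_le hab]
      exact ((hc e).pow 2).mono hsub
    have l12 := lam_eq isEdge_e1 isEdge_e2 (by simp [Fin.sum_univ_three, e1, e2]) hu ha hab hb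
    have l13 := lam_eq isEdge_e1 isEdge_e3 (by simp [Fin.sum_univ_three, e1, e3]) hu ha hab hb
    have sa := rate_sum (hu.1 a (hsub ⟨le_rfl, hab⟩))
    have sb := rate_sum (hu.1 b (hsub ⟨hab, le_rfl⟩))
    have hI : ∫ τ in a..b, F τ = ((∫ τ in a..b, rate (u τ) e1 ^ 2) +
        (∫ τ in a..b, rate (u τ) e2 ^ 2) + (∫ τ in a..b, rate (u τ) e3 ^ 2)) / 3 -
        ∫ τ in a..b, rate (u τ) e ^ 2 := by
      simp only [F]
      rw [intervalIntegral.integral_sub (((hint e1).add (hint e2)).add (hint e3) |>.div_const 3)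
        (hint e), intervalIntegral.integral_div,
        intervalIntegral.integral_add ((hint e1).add (hint e2)) (hint e3),
        intervalIntegral.integral_add (hint e1) (hint e2)]
    rw [hI]
    simp only [lam] at l12 l13
    rcases he with rfl | rfl | rfl <;> linarith
  have ha : 0 < s / 2 := by linarith [hs.1]
  have has : s / 2 < s := by linarith [hs.1]
  have hFs : ContinuousOn F (Ioo 0 t) := hF.mono Ioo_subset_Icc_self
  have h1 : HasDerivAt (fun b => ∫ τ in (s / 2)..b, F τ) (F s) s := by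
    refine intervalIntegral.integral_hasDerivAt_right ?_ ?_ ?_
    · refine ContinuousOn.intervalIntegrable ?_
      rw [uIcc_of_le has.le]
      exact hFs.mono (Icc_sub ha hs.2)
    · exact hFs.stronglyMeasurableAtFilter isOpen_Ioo s hs
    · exact hFs.continuousAt (Ioo_mem_nhds hs.1 hs.2)
  refine (h1.const_add (rate (u (s / 2)) e)).congr_of_eventuallyEq ?_
  filter_upwards [Ioo_mem_nhds has hs.2] with b hb
  exact key (s / 2) b ha hb.1.le hb.2

/-- The system of differential equations for the three rates, in terms of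
`R = -a₁a₂a₃` and `q = a₁² + a₂² + a₃²`. -/
lemma system (hu : IsEulerSolution α t u) {s : ℝ} (hs : s ∈ Ioo 0 t) :
    HasDerivAt (fun τ => -(rate (u τ) e1 * rate (u τ) e2 * rate (u τ) e3))
      ((rate (u s) e1 ^ 2 + rate (u s) e2 ^ 2 + rate (u s) e3 ^ 2) ^ 2 / 6) s ∧
    HasDerivAt (fun τ => rate (u τ) e1 ^ 2 + rate (u τ) e2 ^ 2 + rate (u τ) e3 ^ 2)
      (6 * -(rate (u s) e1 * rate (u s) e2 * rate (u s) e3)) s := by
  have h1 := rate_hasDerivAt (e := e1) hu hs (Or.inl rfl)
  have h2 := rate_hasDerivAt (e := e2) hu hs (Or.inr (Or.inl rfl))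
  have h3 := rate_hasDerivAt (e := e3) hu hs (Or.inr (Or.inr rfl))
  have hs0 := rate_sum (hu.1 s (Ioo_subset_Icc_self hs))
  constructor
  · have h4 := ((h1.mul h2).mul h3).neg
    refine HasDerivAt.congr_deriv h4 ?_
    simp only [Pi.mul_apply]
    generalize rate (u s) e1 = a at *
    generalize rate (u s) e2 = b at *
    generalize rate (u s) e3 = c at *
    have hc : c = -a - b := by linarith
    rw [hc]; ring
  · have h4 := ((h1.pow 2).add (h2.pow 2)).add (h3.pow 2)
    refine HasDerivAt.congr_deriv h4 ?_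
    generalize rate (u s) e1 = a at *
    generalize rate (u s) e2 = b at *
    generalize rate (u s) e3 = c at *
    have hc : c = -a - b := by linarith
    rw [hc]; push_cast; ring

lemma rate_continuousOn (hu : IsEulerSolution α t u) (e : E) :
    ContinuousOn (fun τ => rate (u τ) e) (Icc 0 t) := by
  unfold rate dd
  refine continuousOn_finsetSum _ fun j _ => ?_
  refine ContinuousOn.const_mul ?_ (e j) |>.congr (fun _ _ => rfl)
  have h2 : ContinuousOn (fun τ : ℝ => (τ, (0 : E))) (Icc 0 t) := by fun_prop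
  exact (hu.2.1 0 j).comp h2 (fun τ hτ => ⟨hτ, zero_mem⟩)

end solution

/-- The drift of the Lyapunov functional. -/
lemma drift {R q : ℝ → ℝ} {t T Q B : ℝ} (hT : 0 < T) (hTt : T ≤ t) (hQ : 0 < Q) (hB : 0 < B)
    (hR : ContinuousOn R (Icc 0 t)) (hq : ContinuousOn q (Icc 0 t))
    (hR' : ∀ s ∈ Ioo 0 t, HasDerivAt R (q s ^ 2 / 6) s)
    (hq' : ∀ s ∈ Ioo 0 t, HasDerivAt q (6 * R s) s)
    (hq0 : Q ≤ q 0) (hR0 : -B ≤ R 0) :
    min T (Q / (12 * B)) * Q ^ 2 / 24 ≤ R t - R 0 := by
  set τ := min T (Q / (12 * B)) with hτ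
  have ht : 0 < t := hT.trans_le hTt
  have hτ0 : 0 < τ := lt_min hT (by positivity)
  have hτT : τ ≤ T := min_le_left _ _
  have hτt : τ ≤ t := hτT.trans hTt
  have hτB : τ ≤ Q / (12 * B) := min_le_right _ _
  have hmono : MonotoneOn R (Icc 0 t) := by
    refine monotoneOn_of_deriv_nonneg (convex_Icc _ _) hR ?_ ?_
    · intro s hs
      rw [interior_Icc] at hs
      exact (hR' s hs).differentiableAt.differentiableWithinAt
    · intro s hs
      rw [interior_Icc] at hs
      rw [(hR' s hs).deriv]; positivity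
  have hRlow : ∀ s ∈ Icc 0 t, -B ≤ R s := fun s hs =>
    hR0.trans (hmono ⟨le_rfl, ht.le⟩ hs hs.1)
  have hqmono : MonotoneOn (fun s => q s + 6 * B * s) (Icc 0 t) := by
    refine monotoneOn_of_deriv_nonneg (convex_Icc _ _) (hq.add (by fun_prop)) ?_ ?_
    · intro s hs
      rw [interior_Icc] at hs
      have := (hq' s hs).add ((hasDerivAt_id s).const_mul (6 * B))
      exact this.differentiableAt.differentiableWithinAt
    · intro s hs
      rw [interior_Icc] at hs
      have h1 := (hq' s hs).add ((hasDerivAt_id s).const_mul (6 * B))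
      have h2 : deriv (fun s => q s + 6 * B * s) s = 6 * R s + 6 * B * 1 := h1.deriv
      rw [h2]
      have := hRlow s (Ioo_subset_Icc_self hs)
      linarith
  have hqlow : ∀ s ∈ Icc 0 τ, Q / 2 ≤ q s := by
    intro s hs
    have h1 := hqmono (a := 0) (b := s) ⟨le_rfl, ht.le⟩ ⟨hs.1, hs.2.trans hτt⟩ hs.1
    simp only [mul_zero, add_zero] at h1
    have h2 : 6 * B * s ≤ Q / 2 := by
      have h3 : s ≤ Q / (12 * B) := hs.2.trans hτB
      rw [le_div_iff₀ (by positivity)] at h3
      linarith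
    linarith
  have hRmono : MonotoneOn (fun s => R s - Q ^ 2 / 24 * s) (Icc 0 τ) := by
    have hsub : Icc 0 τ ⊆ Icc 0 t := Icc_subset_Icc le_rfl hτt
    refine monotoneOn_of_deriv_nonneg (convex_Icc _ _) ((hR.mono hsub).sub (by fun_prop)) ?_ ?_
    · intro s hs
      rw [interior_Icc] at hs
      have := (hR' s ⟨hs.1, hs.2.trans_le hτt⟩).sub ((hasDerivAt_id s).const_mul (Q ^ 2 / 24))
      exact this.differentiableAt.differentiableWithinAt
    · intro s hs
      rw [interior_Icc] at hs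
      have h1 := (hR' s ⟨hs.1, hs.2.trans_le hτt⟩).sub
        ((hasDerivAt_id s).const_mul (Q ^ 2 / 24))
      have h2 : deriv (fun s => R s - Q ^ 2 / 24 * s) s = q s ^ 2 / 6 - Q ^ 2 / 24 * 1 := h1.deriv
      rw [h2]
      have h3 := hqlow s (Ioo_subset_Icc_self hs)
      nlinarith
  have h1 := hRmono (a := 0) (b := τ) ⟨le_rfl, hτ0.le⟩ ⟨hτ0.le, le_rfl⟩ hτ0.le
  simp only [mul_zero, sub_zero] at h1
  have h2 := hmono (a := τ) (b := t) ⟨hτ0.le, hτt⟩ ⟨ht.le, le_rfl⟩ hτt
  nlinarith

end Pool.Agent.Helper33.Wander
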